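import Pool.Agent.MP_8bfff4_mp.Win

/-! # Part II (c) : the chain of derivative spaces -/

namespace Pool.Agent.PrimIdx

open Matrix Module

variable {D : ℕ} {A : Submodule ℂ (Mt D)}

/-- the derivative space of the product map -/
def Th (X : ℕ → A) (s l : ℕ) : Submodule ℂ (Mt D) :=
  Submodule.span ℂ (Set.range (fun p : Fin l × A =>
    prd (cs (Function.update X (s + p.1) p.2)) s l))

lemma mem_Th (X : ℕ → A) {s l i : ℕ} (hi : i < l) (B : A) :
    prd (cs (Function.update X (s + i) B)) s l ∈ Th X s l :=
  Submodule.subset_span ⟨(⟨i, hi⟩, B), rfl⟩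

lemma Th_le_iff (X : ℕ → A) (s l : ℕ) (S : Submodule ℂ (Mt D)) :
    Th X s l ≤ S ↔ ∀ i < l, ∀ B : A, prd (cs (Function.update X (s + i) B)) s l ∈ S := by
  constructor
  · intro h i hi B
    exact h (mem_Th X hi B)
  · intro h
    unfold Th
    rw [Submodule.span_le]
    rintro _ ⟨⟨i, B⟩, rfl⟩
    exact h i i.2 B

lemma Th_le_pow (X : ℕ → A) (s l : ℕ) : Th X s l ≤ A ^ l := by
  rw [Th_le_iff]
  intro i _ B
  exact prd_mem _ _ _

lemma Th_congr {X Y : ℕ → A} {s s' l : ℕ} (h : ∀ i < l, X (s + i) = Y (s' + i)) :
    Th X s l = Th Y s' l := by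
  unfold Th
  congr 2
  funext p
  apply prd_congr
  intro i hi
  by_cases h1 : i = p.1
  · simp [cs, h1]
  · have h2 : s + i ≠ s + p.1 := by omega
    have h3 : s' + i ≠ s' + p.1 := by omega
    simp [cs, Function.update_of_ne h2, Function.update_of_ne h3, h i hi]

lemma Th_succ (X : ℕ → A) (s l : ℕ) :
    Th X s (l + 1) = (A * Submodule.span ℂ {prd (cs X) (s + 1) l}) ⊔
      (Submodule.span ℂ {cs X s} * Th X (s + 1) l) := by
  apply le_antisymm
  · rw [Th_le_iff]
    intro i hi B
    rw [prd_succ']
    rcases Nat.eq_zero_or_pos i with rfl | hpos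
    · apply Submodule.mem_sup_left
      have h1 : cs (Function.update X (s + 0) B) s = B := by simp [cs]
      have h2 : prd (cs (Function.update X (s + 0) B)) (s + 1) l = prd (cs X) (s + 1) l := by
        apply prd_congr
        intro i _
        have : s + 1 + i ≠ s + 0 := by omega
        simp only [cs]
        rw [Function.update_of_ne this]
      rw [h1, h2]
      exact Submodule.mul_mem_mul B.2 (Submodule.mem_span_singleton_self _)
    · apply Submodule.mem_sup_right
      have h1 : cs (Function.update X (s + i) B) s = cs X s := by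
        have : s ≠ s + i := by omega
        simp only [cs]
        rw [Function.update_of_ne this]
      rw [h1]
      apply Submodule.mul_mem_mul (Submodule.mem_span_singleton_self _)
      have h2 := mem_Th X (s := s + 1) (l := l) (i := i - 1) (by omega) B
      rw [show s + 1 + (i - 1) = s + i by omega] at h2
      exact h2
  · apply sup_le
    · rw [Submodule.mul_le]
      intro B hB P hP
      obtain ⟨c, rfl⟩ := Submodule.mem_span_singleton.1 hP
      rw [mul_smul_comm]
      apply Submodule.smul_mem
      have h2 := mem_Th X (s := s) (l := l + 1) (i := 0) (by omega) ⟨B, hB⟩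
      have e1 : cs (Function.update X (s + 0) ⟨B, hB⟩) s = B := by simp [cs]
      have e2 : prd (cs (Function.update X (s + 0) ⟨B, hB⟩)) (s + 1) l =
          prd (cs X) (s + 1) l := by
        apply prd_congr
        intro i _
        have : s + 1 + i ≠ s + 0 := by omega
        simp only [cs]
        rw [Function.update_of_ne this]
      rw [prd_succ', e1, e2] at h2
      exact h2
    · rw [Submodule.mul_le]
      intro P hP Z hZ
      obtain ⟨c, rfl⟩ := Submodule.mem_span_singleton.1 hP
      rw [smul_mul_assoc]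
      apply Submodule.smul_mem
      have h3 : Th X (s + 1) l ≤ (Th X s (l + 1)).comap (LinearMap.mulLeft ℂ (cs X s)) := by
        rw [Th_le_iff]
        intro i hi B
        rw [Submodule.mem_comap, LinearMap.mulLeft_apply]
        have h2 := mem_Th X (s := s) (l := l + 1) (i := i + 1) (by omega) B
        have e1 : cs (Function.update X (s + (i + 1)) B) s = cs X s := by
          have : s ≠ s + (i + 1) := by omega
          simp only [cs]
          rw [Function.update_of_ne this]
        rw [prd_succ', e1, show s + (i + 1) = s + 1 + i by omega] at h2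
        exact h2
      exact h3 hZ

lemma generic_Th (s l r : ℕ) :
    Generic (fun X : ℕ → A => r ≤ finrank ℂ (Th X s l)) := by
  apply generic_finrank_span (E := ℕ → A) (F := Mt D) (β := Fin l × A)
    (fun p X => prd (cs (Function.update X (s + p.1) p.2)) s l)
  rintro ⟨i, B⟩ u v
  have h := isPoly_prd (A := A) (Function.update u (s + i) B) (Function.update v (s + i) 0) s l
  convert h using 4 with t
  funext j
  by_cases h1 : j = s + i
  · subst h1
    simp
  · simp [Function.update_of_ne h1]

/-- the maximal dimension of the derivative space -/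
noncomputable def dl (A : Submodule ℂ (Mt D)) (l : ℕ) : ℕ :=
  sSup {r | ∃ X : ℕ → A, r = finrank ℂ (Th X 0 l)}

lemma dl_bdd (A : Submodule ℂ (Mt D)) (l : ℕ) :
    BddAbove {r | ∃ X : ℕ → A, r = finrank ℂ (Th X 0 l)} := by
  refine ⟨D ^ 2, ?_⟩
  rintro _ ⟨X, rfl⟩
  rw [← finrank_Mt (D := D)]
  exact Submodule.finrank_le _

lemma le_dl (X : ℕ → A) (s l : ℕ) : finrank ℂ (Th X s l) ≤ dl A l := by
  apply le_csSup (dl_bdd A l)
  refine ⟨fun i => X (s + i), ?_⟩
  have : Th X s l = Th (fun i => X (s + i)) 0 l := by
    apply Th_congr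
    intro i _
    simp
  rw [this]

lemma exists_dl (A : Submodule ℂ (Mt D)) (s l : ℕ) :
    ∃ X : ℕ → A, dl A l ≤ finrank ℂ (Th X s l) := by
  have hne : {r | ∃ X : ℕ → A, r = finrank ℂ (Th X 0 l)}.Nonempty := ⟨_, 0, rfl⟩
  obtain ⟨X, hX⟩ := Nat.sSup_mem hne (dl_bdd A l)
  refine ⟨fun i => X (i - s), ?_⟩
  have : Th (fun i => X (i - s)) s l = Th X 0 l := by
    apply Th_congr
    intro i _
    simp
  rw [this, dl, hX]

lemma finrank_unit_mul {N : Mt D} (hN : IsUnit N) (S : Submodule ℂ (Mt D)) :
    finrank ℂ ↥(Submodule.span ℂ {N} * S) = finrank ℂ S := by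
  have h1 : Submodule.span ℂ {N} * S = S.map (LinearMap.mulLeft ℂ N) := by
    ext Z
    rw [Submodule.mem_span_singleton_mul, Submodule.mem_map]
    simp
  have h2 : Function.Injective ((LinearMap.mulLeft ℂ N).domRestrict S) := by
    intro a b hab
    simp only [LinearMap.domRestrict_apply, LinearMap.mulLeft_apply] at hab
    exact Subtype.ext (hN.mul_left_cancel hab)
  rw [h1, ← LinearMap.range_domRestrict]
  exact LinearMap.finrank_range_of_inj h2

lemma finrank_mul_unit {N : Mt D} (hN : IsUnit N) (S : Submodule ℂ (Mt D)) :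
    finrank ℂ ↥(S * Submodule.span ℂ {N}) = finrank ℂ S := by
  have h1 : S * Submodule.span ℂ {N} = S.map (LinearMap.mulRight ℂ N) := by
    ext Z
    rw [Submodule.mem_mul_span_singleton, Submodule.mem_map]
    simp
  have h2 : Function.Injective ((LinearMap.mulRight ℂ N).domRestrict S) := by
    intro a b hab
    simp only [LinearMap.domRestrict_apply, LinearMap.mulRight_apply] at hab
    exact Subtype.ext (hN.mul_right_cancel hab)
  rw [h1, ← LinearMap.range_domRestrict]
  exact LinearMap.finrank_range_of_inj h2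

/-- if the chain of dimensions stops, products can be absorbed -/
lemma chain_step {l : ℕ} (h : dl A (l + 1) ≤ dl A l) {N : Mt D} (hN : N ∈ A) (hNu : IsUnit N) :
    A ^ (l + 1) ≤ Submodule.span ℂ {N} * A ^ l := by
  -- maximisers
  have hmax : ∀ X : ℕ → A, dl A l ≤ finrank ℂ (Th X 1 l) → ∀ B ∈ A,
      B * prd (cs X) 1 l ∈ Submodule.span ℂ {N} * A ^ l := by
    intro X hX B hB
    set X' : ℕ → A := Function.update X 0 ⟨N, hN⟩ with hX'
    have e1 : cs X' 0 = N := by simp [hX', cs]
    have e2 : prd (cs X') 1 l = prd (cs X) 1 l := by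
      apply prd_congr
      intro i _
      have : 1 + i ≠ 0 := by omega
      simp only [hX', cs]
      rw [Function.update_of_ne this]
    have e3 : Th X' 1 l = Th X 1 l := by
      apply Th_congr
      intro i _
      have : 1 + i ≠ 0 := by omega
      simp only [hX']
      rw [Function.update_of_ne this]
    have e4 := Th_succ X' 0 l
    rw [zero_add, e1, e2, e3] at e4
    have e5 : Submodule.span ℂ {N} * Th X 1 l = Th X' 0 (l + 1) := by
      apply Submodule.eq_of_le_of_finrank_le
      · rw [e4]; exact le_sup_right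
      · rw [finrank_unit_mul hNu]
        exact (le_dl X' 0 (l + 1)).trans (h.trans hX)
    have e6 : B * prd (cs X) 1 l ∈ Th X' 0 (l + 1) := by
      rw [e4]
      apply Submodule.mem_sup_left
      exact Submodule.mul_mem_mul hB (Submodule.mem_span_singleton_self _)
    rw [← e5] at e6
    exact (mul_le_mul' le_rfl (Th_le_pow X 1 l)) e6
  obtain ⟨X, hX⟩ := exists_dl A 1 l
  have hall : ∀ Y : ℕ → A, ∀ B ∈ A, B * prd (cs Y) 1 l ∈ Submodule.span ℂ {N} * A ^ l := by
    intro Y B hB
    have hfin := (generic_Th (A := A) 1 l (dl A l)).line hX Y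
    have hpoly : IsPoly (fun t : ℂ => B * prd (cs (X + t • (Y - X))) 1 l) :=
      IsPoly.mul (IsPoly.const B) (isPoly_prd X (Y - X) 1 l)
    have := hpoly.mem_of_finite (Submodule.span ℂ {N} * A ^ l) (hfin.subset (by
      intro t ht hcon
      exact ht (hmax _ hcon B hB))) 1
    simpa using this
  rw [pow_succ', Submodule.mul_le]
  intro B hB P hP
  have hP' := pow_le_span l 1 hP
  clear hP
  induction hP' using Submodule.span_induction with
  | mem x hx =>
    obtain ⟨Y, rfl⟩ := hx
    exact hall Y B hB
  | zero => simp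
  | add x y _ _ h1 h2 => rw [mul_add]; exact Submodule.add_mem _ h1 h2
  | smul a x _ h => rw [mul_smul_comm]; exact Submodule.smul_mem _ _ h

lemma chain_top (hfull : ∃ q, ∀ n ≥ q, A ^ n = ⊤) {l : ℕ} (h : dl A (l + 1) ≤ dl A l)
    (hu : ∃ M ∈ A, IsUnit M) : A ^ l = ⊤ := by
  obtain ⟨N, hN, hNu⟩ := hu
  have h1 := chain_step h hN hNu
  have h2 : ∀ j, finrank ℂ ↥(A ^ (l + j)) ≤ finrank ℂ ↥(A ^ l) := by
    intro j
    induction j with
    | zero => exact le_rfl
    | succ j ih =>
      refine le_trans ?_ ih
      rw [← finrank_unit_mul hNu (A ^ (l + j))]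
      apply Submodule.finrank_mono
      calc A ^ (l + (j + 1)) = A ^ (l + 1) * A ^ j := by rw [← pow_add]; congr 1; omega
        _ ≤ (Submodule.span ℂ {N} * A ^ l) * A ^ j := mul_le_mul' h1 le_rfl
        _ = Submodule.span ℂ {N} * A ^ (l + j) := by rw [mul_assoc, ← pow_add]
  obtain ⟨q, hq⟩ := hfull
  have h3 := h2 q
  rw [hq (l + q) (by omega)] at h3
  apply Submodule.eq_top_of_finrank_eq
  rw [finrank_top] at h3
  exact le_antisymm (Submodule.finrank_le _) h3

lemma generic_unit (i : ℕ) : Generic (fun X : ℕ → A => IsUnit (cs X i)) := by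
  intro u v hu
  have h1 : IsPoly (fun t : ℂ => (cs (u + t • v) i).det) := by
    apply IsPoly.det
    intro a b
    have := (IsPoly.lin (cs u i) (cs v i)).map
      (Matrix.entryLinearMap ℂ ℂ a b : Mt D →ₗ[ℂ] ℂ)
    exact this
  have h2 : (cs (u + (0 : ℂ) • v) i).det ≠ 0 := by
    have := (Matrix.isUnit_iff_isUnit_det _).1 hu
    simpa using this.ne_zero
  refine (h1.finite_zeros h2).subset ?_
  intro t ht
  simp only [Set.mem_ofPred_eq] at ht ⊢
  by_contra hne
  exact ht ((Matrix.isUnit_iff_isUnit_det _).2 (isUnit_iff_ne_zero.2 hne))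

/-- Part II (c) : the dimension chain -/
theorem chain_c (hfull : ∃ q, ∀ n ≥ q, A ^ n = ⊤)
    (h : Submodule ℂ (Mt D))
    (hu : ∃ M ∈ A, IsUnit M)
    (hBM : ∀ B ∈ A, ∀ M ∈ A, IsUnit M → B * M⁻¹ ∈ h)
    (hconj : ∀ M ∈ A, IsUnit M → ∀ Z ∈ h, M * Z * M⁻¹ ∈ h) (k : ℕ)
    (hk : finrank ℂ h + 1 ≤ finrank ℂ A + k) : A ^ k = ⊤ := by
  by_contra hne
  obtain ⟨N, hN, hNu⟩ := hu
  -- no smaller power is everything
  have hne2 : ∀ l ≤ k, A ^ l ≠ ⊤ := by
    intro l hl htop
    apply hne
    obtain ⟨j, rfl⟩ := Nat.exists_eq_add_of_le hl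
    clear hk hl hne
    induction j with
    | zero => exact htop
    | succ j ih =>
      rw [eq_top_iff]
      intro Z _
      have h2 : Z = N * (N⁻¹ * Z) := by
        rw [← mul_assoc, Matrix.mul_nonsing_inv _ ((Matrix.isUnit_iff_isUnit_det _).1 hNu),
          one_mul]
      rw [h2, ← add_assoc, pow_succ', ih]
      exact Submodule.mul_mem_mul hN trivial
  have hlow : ∀ l ≤ k, finrank ℂ A + l ≤ dl A (l + 1) := by
    intro l
    induction l with
    | zero =>
      intro _
      have h1 : Th (0 : ℕ → A) 0 1 = A := by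
        have := Th_succ (0 : ℕ → A) 0 0
        rw [this]
        have h2 : Th (0 : ℕ → A) (0 + 1) 0 = ⊥ := by
          rw [eq_bot_iff, Th_le_iff]
          intro i hi
          omega
        rw [h2, prd_zero, ← Submodule.one_eq_span, mul_one, Submodule.mul_bot, sup_bot_eq]
      have h2 := le_dl (0 : ℕ → A) 0 1
      rw [h1] at h2
      simpa using h2
    | succ l ih =>
      intro hl
      have ih' := ih (by omega)
      have h1 : ¬ (dl A (l + 1 + 1) ≤ dl A (l + 1)) := by
        intro hc
        exact hne2 (l + 1) hl (chain_top hfull hc ⟨N, hN, hNu⟩)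
      omega
  -- upper bound
  have hup : dl A (k + 1) ≤ finrank ℂ h := by
    obtain ⟨X, hX1, hX2⟩ := Generic.exists_and (generic_Th (A := A) 0 (k + 1) (dl A (k + 1)))
      (Generic.finset (Finset.range (k + 1)) (fun i _ => generic_unit (A := A) i))
      (exists_dl A 0 (k + 1)) ⟨fun _ => ⟨N, hN⟩, fun i _ => hNu⟩
    refine hX1.trans ?_
    have hincl : ∀ l s, s + l ≤ k + 1 → Th X s l ≤ h * Submodule.span ℂ {prd (cs X) s l} := by
      intro l
      induction l with
      | zero =>
        intro s _
        rw [Th_le_iff]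
        intro i hi
        omega
      | succ l ih =>
        intro s hs
        have hXu : IsUnit (cs X s) := hX2 s (by simp; omega)
        have hXu' := (Matrix.isUnit_iff_isUnit_det _).1 hXu
        rw [Th_succ]
        apply sup_le
        · rw [Submodule.mul_le]
          intro B hB P hP
          obtain ⟨c, rfl⟩ := Submodule.mem_span_singleton.1 hP
          rw [mul_smul_comm]
          apply Submodule.smul_mem
          have e : B * prd (cs X) (s + 1) l = (B * (cs X s)⁻¹) * prd (cs X) s (l + 1) := by
            rw [prd_succ', mul_assoc, ← mul_assoc (cs X s)⁻¹, Matrix.nonsing_inv_mul _ hXu',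
              one_mul]
          rw [e]
          exact Submodule.mul_mem_mul (hBM B hB _ (cs_mem X s) hXu)
            (Submodule.mem_span_singleton_self _)
        · rw [Submodule.mul_le]
          intro P hP Z hZ
          obtain ⟨c, rfl⟩ := Submodule.mem_span_singleton.1 hP
          rw [smul_mul_assoc]
          apply Submodule.smul_mem
          have h1 := ih (s + 1) (by omega) hZ
          rw [Submodule.mem_mul_span_singleton] at h1
          obtain ⟨z, hz, rfl⟩ := h1
          have e : cs X s * (z * prd (cs X) (s + 1) l) =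
              (cs X s * z * (cs X s)⁻¹) * prd (cs X) s (l + 1) := by
            rw [prd_succ']
            calc cs X s * (z * prd (cs X) (s + 1) l)
                = cs X s * z * (1 * prd (cs X) (s + 1) l) := by rw [one_mul, mul_assoc]
              _ = cs X s * z * (((cs X s)⁻¹ * cs X s) * prd (cs X) (s + 1) l) := by
                  rw [Matrix.nonsing_inv_mul _ hXu']
              _ = _ := by simp only [mul_assoc]
          rw [e]
          exact Submodule.mul_mem_mul (hconj _ (cs_mem X s) hXu z hz)
            (Submodule.mem_span_singleton_self _)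
    have hPu : IsUnit (prd (cs X) 0 (k + 1)) := by
      apply prd_isUnit
      intro i hi
      rw [zero_add]
      exact hX2 i (by simp; omega)
    calc finrank ℂ (Th X 0 (k + 1)) ≤ finrank ℂ ↥(h * Submodule.span ℂ {prd (cs X) 0 (k + 1)}) :=
          Submodule.finrank_mono (hincl (k + 1) 0 (by omega))
      _ = finrank ℂ h := finrank_mul_unit hPu h
  have := hlow k le_rfl
  omega

end Pool.Agent.PrimIdx
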