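import Pool.Agent.MP_8bfff4_mp.Chain

/-! # Part II (d) : the commutator chain -/

namespace Pool.Agent.PrimIdx

open Matrix Module

variable {D : ℕ} {A : Submodule ℂ (Mt D)}

/-- `X ↦ M X - X M` -/
noncomputable def ad (M : Mt D) : Mt D →ₗ[ℂ] Mt D := LinearMap.mulLeft ℂ M - LinearMap.mulRight ℂ M

@[simp] lemma ad_apply (M X : Mt D) : ad M X = M * X - X * M := by simp [ad]

lemma isPoly_pow (u v : Mt D) (i : ℕ) : IsPoly (fun t : ℂ => (u + t • v) ^ i) := by
  induction i with
  | zero => simpa using IsPoly.const (1 : Mt D)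
  | succ i ih =>
    have := IsPoly.mul ih (IsPoly.lin u v)
    simpa [pow_succ] using this

/-- rank of `ad M` is at most `D ^ 2 - D` -/
theorem ad_rank (M : Mt D) : finrank ℂ (LinearMap.range (ad M)) + D ≤ D ^ 2 := by
  by_contra hcon
  push Not at hcon
  -- two generic properties
  have hP : Generic (fun Z : Mt D => D ^ 2 - D + 1 ≤
      finrank ℂ (Submodule.span ℂ (Set.range (fun X : Mt D => Z * X - X * Z)))) := by
    apply generic_finrank_span (E := Mt D) (F := Mt D) (β := Mt D) (fun X Z => Z * X - X * Z)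
    intro X u v
    exact IsPoly.sub (IsPoly.mul (IsPoly.lin u v) (IsPoly.const X))
      (IsPoly.mul (IsPoly.const X) (IsPoly.lin u v))
  have hQ : Generic (fun Z : Mt D => D ≤
      finrank ℂ (Submodule.span ℂ (Set.range (fun i : Fin D => Z ^ (i : ℕ))))) := by
    apply generic_finrank_span (E := Mt D) (F := Mt D) (β := Fin D) (fun i Z => Z ^ (i : ℕ))
    intro i u v
    exact isPoly_pow u v i
  have hspan : ∀ Z : Mt D, Submodule.span ℂ (Set.range (fun X : Mt D => Z * X - X * Z)) =
      LinearMap.range (ad Z) := by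
    intro Z
    have : Set.range (fun X : Mt D => Z * X - X * Z) = (LinearMap.range (ad Z) : Set (Mt D)) := by
      ext W
      simp
    rw [this, Submodule.span_eq]
  have h1 : ∃ Z : Mt D, D ^ 2 - D + 1 ≤
      finrank ℂ (Submodule.span ℂ (Set.range (fun X : Mt D => Z * X - X * Z))) := by
    refine ⟨M, ?_⟩
    rw [hspan]
    have : D ≤ D ^ 2 := by nlinarith [Nat.zero_le D]
    have h0 : D ^ 2 - D + 1 ≤ finrank ℂ (LinearMap.range (ad M)) := by omega
    exact h0
  have h2 : ∃ Z : Mt D, D ≤
      finrank ℂ (Submodule.span ℂ (Set.range (fun i : Fin D => Z ^ (i : ℕ)))) := by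
    refine ⟨Matrix.diagonal (fun i : Fin D => ((i : ℕ) : ℂ)), ?_⟩
    have hli : LinearIndependent ℂ (fun i : Fin D =>
        (Matrix.diagonal (fun i : Fin D => ((i : ℕ) : ℂ)) : Mt D) ^ (i : ℕ)) := by
      apply LinearIndependent.of_comp (Matrix.diagLinearMap (Fin D) ℂ ℂ)
      have hv : (Matrix.vandermonde (fun i : Fin D => ((i : ℕ) : ℂ))).det ≠ 0 := by
        rw [Matrix.det_vandermonde_ne_zero_iff]
        intro a b hab
        have hab' : ((a : ℕ) : ℂ) = ((b : ℕ) : ℂ) := hab
        exact Fin.ext (by exact_mod_cast hab')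
      have hli0 := Matrix.linearIndependent_cols_of_det_ne_zero hv
      have hcol : (⇑(Matrix.diagLinearMap (Fin D) ℂ ℂ) ∘ fun i : Fin D =>
          (Matrix.diagonal (fun i : Fin D => ((i : ℕ) : ℂ)) : Mt D) ^ (i : ℕ)) =
          (Matrix.vandermonde (fun i : Fin D => ((i : ℕ) : ℂ))).col := by
        funext i j
        simp [Matrix.vandermonde_apply, Matrix.diagonal_pow, Matrix.col]
      rw [hcol]
      exact hli0
    rw [finrank_span_eq_card hli]
    simp
  obtain ⟨Z, hZ1, hZ2⟩ := Generic.exists_and hP hQ h1 h2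
  rw [hspan] at hZ1
  have h3 : Submodule.span ℂ (Set.range (fun i : Fin D => Z ^ (i : ℕ))) ≤
      LinearMap.ker (ad Z) := by
    rw [Submodule.span_le]
    rintro _ ⟨i, rfl⟩
    simp only [SetLike.mem_coe, LinearMap.mem_ker, ad_apply]
    rw [← pow_succ', ← pow_succ, sub_self]
  have h4 := Submodule.finrank_mono h3
  have h5 := LinearMap.finrank_range_add_finrank_ker (ad Z)
  rw [finrank_Mt] at h5
  have h6 : D ^ 2 - D + 1 ≤ finrank ℂ (LinearMap.range (ad Z)) := hZ1
  have h7 : D ≤ finrank ℂ (LinearMap.ker (ad Z)) := hZ2.trans h4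
  omega

/-- the commutator chain -/
theorem comm_chain (T : ℕ → Submodule ℂ (Mt D)) (n : ℕ)
    (hl : ∀ k, ∀ M ∈ A, ∀ Z ∈ T k, M * Z ∈ T (k + 1))
    (hr : ∀ k, ∀ M ∈ A, ∀ Z ∈ T k, Z * M ∈ T (k + 1))
    (hns : ∀ k < n, ∃ M ∈ A, IsUnit M ∧ ∃ Z ∈ T k, M * Z * M⁻¹ ∉ T k)
    (hn : 0 < n) : n + D ≤ D ^ 2 := by
  -- generic properties on A
  have hgen : ∀ k, Generic (fun M : A => finrank ℂ (T k) + 1 ≤
      finrank ℂ (Submodule.span ℂ (Set.range (fun p : Bool × T k =>
        if p.1 then (M : Mt D) * p.2 else (p.2 : Mt D) * M)))) := by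
    intro k
    apply generic_finrank_span (E := A) (F := Mt D) (β := Bool × T k)
      (fun p M => if p.1 then (M : Mt D) * p.2 else (p.2 : Mt D) * M)
    rintro ⟨b, Z⟩ u v
    cases b
    · simp only [Bool.false_eq_true, if_false]
      exact IsPoly.mul (IsPoly.const (Z : Mt D)) (IsPoly.lin (u : Mt D) (v : Mt D))
    · simp only [if_true]
      exact IsPoly.mul (IsPoly.lin (u : Mt D) (v : Mt D)) (IsPoly.const (Z : Mt D))
  have hgu : Generic (fun M : A => IsUnit (M : Mt D)) := by
    intro u v hu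
    have h1 : IsPoly (fun t : ℂ => ((u + t • v : A) : Mt D).det) := by
      apply IsPoly.det
      intro a b
      have := (IsPoly.lin (u : Mt D) (v : Mt D)).map
        (Matrix.entryLinearMap ℂ ℂ a b : Mt D →ₗ[ℂ] ℂ)
      exact this
    have h2 : ((u + (0 : ℂ) • v : A) : Mt D).det ≠ 0 := by
      have := (Matrix.isUnit_iff_isUnit_det _).1 hu
      simpa using this.ne_zero
    refine (h1.finite_zeros h2).subset ?_
    intro t ht
    simp only [Set.mem_ofPred_eq] at ht ⊢
    by_contra hne
    exact ht ((Matrix.isUnit_iff_isUnit_det _).2 (isUnit_iff_ne_zero.2 hne))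
  have hex : ∀ k < n, ∃ M : A, finrank ℂ (T k) + 1 ≤
      finrank ℂ (Submodule.span ℂ (Set.range (fun p : Bool × T k =>
        if p.1 then (M : Mt D) * p.2 else (p.2 : Mt D) * M))) := by
    intro k hk
    obtain ⟨M, hM, hMu, Z, hZ, hZn⟩ := hns k hk
    refine ⟨⟨M, hM⟩, ?_⟩
    set S := Submodule.span ℂ (Set.range (fun p : Bool × T k =>
        if p.1 then M * p.2 else (p.2 : Mt D) * M)) with hS
    suffices h0 : finrank ℂ (T k) + 1 ≤ finrank ℂ S from h0
    have h1 : T k * Submodule.span ℂ {M} ≤ S := by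
      intro W hW
      rw [Submodule.mem_mul_span_singleton] at hW
      obtain ⟨z, hz, rfl⟩ := hW
      exact Submodule.subset_span ⟨(false, ⟨z, hz⟩), by simp⟩
    have h2 : M * Z ∈ S := Submodule.subset_span ⟨(true, ⟨Z, hZ⟩), by simp⟩
    have h3 : M * Z ∉ T k * Submodule.span ℂ {M} := by
      intro h
      rw [Submodule.mem_mul_span_singleton] at h
      obtain ⟨z, hz, hz2⟩ := h
      apply hZn
      rw [← hz2, mul_assoc, Matrix.mul_nonsing_inv _ ((Matrix.isUnit_iff_isUnit_det _).1 hMu),
        mul_one]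
      exact hz
    have h4 : T k * Submodule.span ℂ {M} < S := lt_of_le_of_ne h1 (fun h => h3 (h ▸ h2))
    have h5 := Submodule.finrank_lt_finrank_of_lt h4
    rw [finrank_mul_unit hMu] at h5
    exact Nat.succ_le_of_lt h5
  obtain ⟨M0, hM0, _⟩ := hns 0 hn
  obtain ⟨⟨M, hMA⟩, hMu, hMk⟩ := Generic.exists_and hgu
    (Generic.finset (Finset.range n) (fun k _ => hgen k))
    (by obtain ⟨M, hM, hMu, _⟩ := hns 0 hn; exact ⟨⟨M, hM⟩, hMu⟩)
    (Generic.exists_finset (Finset.range n) (fun k _ => hgen k)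
      (fun k hk => hex k (Finset.mem_range.1 hk)))
  simp only [Finset.mem_range] at hMk hMu
  have hMu' := (Matrix.isUnit_iff_isUnit_det _).1 hMu
  -- M is not normalising
  have hnn : ∀ k < n, ¬ (∀ Z ∈ T k, Z * M ∈ Submodule.span ℂ {M} * T k) := by
    intro k hk hcon
    have h1 := hMk k hk
    have h2 : Submodule.span ℂ (Set.range (fun p : Bool × T k =>
        if p.1 then M * p.2 else (p.2 : Mt D) * M)) ≤ Submodule.span ℂ {M} * T k := by
      rw [Submodule.span_le]
      rintro _ ⟨⟨b, Z⟩, rfl⟩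
      cases b
      · simp only [Bool.false_eq_true, if_false]
        exact hcon Z Z.2
      · simp only [if_true]
        exact Submodule.mul_mem_mul (Submodule.mem_span_singleton_self _) Z.2
    have h3 := Submodule.finrank_mono h2
    rw [finrank_unit_mul hMu] at h3
    omega
  -- the chain
  set C : ℕ → Submodule ℂ (Mt D) := fun k => (T k).map (ad M) with hC
  have hC1 : ∀ k, Submodule.span ℂ {M} * C k ≤ C (k + 1) := by
    intro k W hW
    rw [Submodule.mem_span_singleton_mul] at hW
    obtain ⟨z, hz, rfl⟩ := hW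
    obtain ⟨Z, hZ, rfl⟩ := Submodule.mem_map.1 hz
    refine Submodule.mem_map.2 ⟨M * Z, hl k M hMA Z hZ, ?_⟩
    simp [mul_sub, mul_assoc]
  have hC2 : ∀ k, C k ≤ T (k + 1) := by
    intro k W hW
    obtain ⟨Z, hZ, rfl⟩ := Submodule.mem_map.1 hW
    rw [ad_apply]
    exact Submodule.sub_mem _ (hl k M hMA Z hZ) (hr k M hMA Z hZ)
  have hlow : ∀ k, k < n → k + 1 ≤ finrank ℂ (C k) := by
    intro k
    induction k with
    | zero =>
      intro h0
      rcases Nat.eq_zero_or_pos (finrank ℂ (C 0)) with h | h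
      · exfalso
        apply hnn 0 h0
        intro Z hZ
        rw [Submodule.finrank_eq_zero] at h
        have h1 : ad M Z ∈ C 0 := Submodule.mem_map_of_mem hZ
        rw [h, Submodule.mem_bot, ad_apply, sub_eq_zero] at h1
        rw [← h1]
        exact Submodule.mul_mem_mul (Submodule.mem_span_singleton_self _) hZ
      · omega
    | succ k ih =>
      intro hk
      have ih' := ih (by omega)
      have h1 := Submodule.finrank_mono (hC1 k)
      rw [finrank_unit_mul hMu] at h1
      rcases Nat.lt_or_ge (finrank ℂ (C k)) (finrank ℂ (C (k + 1))) with h2 | h2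
      · omega
      · exfalso
        apply hnn (k + 1) hk
        intro Z hZ
        have h3 : Submodule.span ℂ {M} * C k = C (k + 1) := by
          apply Submodule.eq_of_le_of_finrank_le (hC1 k)
          rw [finrank_unit_mul hMu]
          exact h2
        have h4 : ad M Z ∈ Submodule.span ℂ {M} * T (k + 1) := by
          have h5 : ad M Z ∈ C (k + 1) := Submodule.mem_map_of_mem hZ
          rw [← h3] at h5
          exact (mul_le_mul' le_rfl (hC2 k)) h5
        have h5 : M * Z ∈ Submodule.span ℂ {M} * T (k + 1) :=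
          Submodule.mul_mem_mul (Submodule.mem_span_singleton_self _) hZ
        have h6 := Submodule.sub_mem _ h5 h4
        simpa using h6
  have h1 := hlow (n - 1) (by omega)
  have h2 : finrank ℂ (C (n - 1)) ≤ finrank ℂ (LinearMap.range (ad M)) := by
    apply Submodule.finrank_mono
    exact LinearMap.map_le_range
  have h3 := ad_rank M
  omega

end Pool.Agent.PrimIdx
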