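import Pool.Agent.MP_8bfff4_mp.Win

/-! MP_8bfff4_mp : module lie_of_conj of the blueprint of helper1
(written by helper35). -/

namespace Pool.Agent.PrimIdx

open Matrix Module Filter Topology

section conj

variable {D : ℕ}

/-- (a) if every invertible element of A normalises T then `[B M⁻¹, T] ⊆ T` -/
theorem lie_of_conj (A T : Submodule ℂ (Mt D))
    (hT : ∀ M ∈ A, IsUnit M → ∀ Z ∈ T, M * Z * M⁻¹ ∈ T)
    (B M : Mt D) (hB : B ∈ A) (hM : M ∈ A) (hMu : IsUnit M) (Z : Mt D) (hZ : Z ∈ T) :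
    (B * M⁻¹) * Z - Z * (B * M⁻¹) ∈ T := by
  have hMdet : IsUnit M.det := (Matrix.isUnit_iff_isUnit_det M).mp hMu
  -- step 1
  obtain ⟨W, hW, hWZ⟩ : ∃ W ∈ T, M * W * M⁻¹ = Z := by
    let c : T →ₗ[ℂ] T :=
      { toFun := fun X => ⟨M * X * M⁻¹, hT M hM hMu X X.2⟩
        map_add' := by
          intro X Y
          ext1
          simp [Matrix.mul_add, Matrix.add_mul]
        map_smul' := by
          intro a X
          ext1
          simp }
    have hinj : Function.Injective c := by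
      intro X Y hXY
      have h1 : M * (X : Matrix (Fin D) (Fin D) ℂ) * M⁻¹ = M * Y * M⁻¹ := congrArg Subtype.val hXY
      have h2 : M⁻¹ * (M * (X : Matrix (Fin D) (Fin D) ℂ) * M⁻¹) * M
          = M⁻¹ * (M * Y * M⁻¹) * M := by rw [h1]
      have h3 : ∀ X : Matrix (Fin D) (Fin D) ℂ, M⁻¹ * (M * X * M⁻¹) * M = X := by
        intro X
        rw [Matrix.mul_assoc M X, Matrix.nonsing_inv_mul_cancel_left M _ hMdet, Matrix.mul_assoc,
          Matrix.nonsing_inv_mul M hMdet, Matrix.mul_one]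
      rw [h3, h3] at h2
      exact Subtype.ext h2
    have hsurj : Function.Surjective c := LinearMap.surjective_of_injective hinj
    obtain ⟨W, hW⟩ := hsurj ⟨Z, hZ⟩
    exact ⟨W, W.2, congrArg Subtype.val hW⟩
  set ξ := B * M⁻¹ with hξ
  have hξM : ξ * M = B := by
    rw [hξ, Matrix.mul_assoc, Matrix.nonsing_inv_mul M hMdet, Matrix.mul_one]
  -- step 2
  have key : ∀ t : ℂ, t ≠ 0 → (1 + t • ξ).det ≠ 0 →
      (ξ * Z - Z * ξ) * (1 + t • ξ).adjugate ∈ T := by
    intro t ht hdet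
    set N := 1 + t • ξ with hN
    have hNu : IsUnit N.det := isUnit_iff_ne_zero.mpr hdet
    have h1 : M + t • B = N * M := by
      rw [hN, Matrix.add_mul, Matrix.one_mul, Matrix.smul_mul, hξM]
    have h2 : N * M ∈ A := by
      rw [← h1]; exact A.add_mem hM (A.smul_mem _ hB)
    have h3 : IsUnit (N * M) := ((Matrix.isUnit_iff_isUnit_det N).mpr hNu).mul hMu
    have h4 := hT _ h2 h3 W hW
    have h5 : N * M * W * (N * M)⁻¹ = N * Z * N⁻¹ := by
      rw [Matrix.mul_inv_rev, ← hWZ]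
      simp only [Matrix.mul_assoc]
    rw [h5] at h4
    have h6 := T.sub_mem h4 hZ
    have h7 : N * Z * N⁻¹ - Z = (t * N.det⁻¹) • ((ξ * Z - Z * ξ) * N.adjugate) := by
      have e1 : Z = Z * N * N⁻¹ := by
        rw [Matrix.mul_assoc, Matrix.mul_nonsing_inv N hNu, Matrix.mul_one]
      have e2 : N * Z * N⁻¹ - Z = (N * Z - Z * N) * N⁻¹ := by
        rw [Matrix.sub_mul, ← e1]
      rw [e2]
      have e3 : N * Z - Z * N = t • (ξ * Z - Z * ξ) := by
        rw [hN, Matrix.add_mul, Matrix.mul_add, Matrix.one_mul, Matrix.mul_one, Matrix.smul_mul,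
          Matrix.mul_smul, smul_sub]
        abel
      rw [e3, Matrix.inv_def, Ring.inverse_eq_inv', Matrix.smul_mul, Matrix.mul_smul, smul_smul]
    rw [h7] at h6
    have h8 : t * N.det⁻¹ ≠ 0 := mul_ne_zero ht (inv_ne_zero hdet)
    have h9 := T.smul_mem (t * N.det⁻¹)⁻¹ h6
    rwa [smul_smul, inv_mul_cancel₀ h8, one_smul] at h9
  -- step 3
  have hclosed : IsClosed (T : Set (Matrix (Fin D) (Fin D) ℂ)) :=
    Submodule.closed_of_finiteDimensional T
  have hcont : Continuous fun t : ℂ => (ξ * Z - Z * ξ) * (1 + t • ξ).adjugate := by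
    have h1 : Continuous fun t : ℂ => (1 + t • ξ) := by fun_prop
    exact continuous_const.matrix_mul h1.matrix_adjugate
  have hdetc : Continuous fun t : ℂ => (1 + t • ξ).det := by
    have h1 : Continuous fun t : ℂ => (1 + t • ξ) := by fun_prop
    exact h1.matrix_det
  have hlim : Tendsto (fun t : ℂ => (ξ * Z - Z * ξ) * (1 + t • ξ).adjugate) (𝓝[≠] 0)
      (𝓝 (ξ * Z - Z * ξ)) := by
    have h1 := (hcont.tendsto 0).mono_left (nhdsWithin_le_nhds (s := {0}ᶜ))
    simpa using h1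
  have hev : ∀ᶠ t in 𝓝[≠] (0 : ℂ), (ξ * Z - Z * ξ) * (1 + t • ξ).adjugate ∈ T := by
    have h1 : ∀ᶠ t in 𝓝 (0 : ℂ), (1 + t • ξ).det ≠ 0 := by
      apply hdetc.continuousAt.eventually_ne
      simp
    have h2 : ∀ᶠ t in 𝓝[≠] (0 : ℂ), (1 + t • ξ).det ≠ 0 := h1.filter_mono nhdsWithin_le_nhds
    have h3 : ∀ᶠ t in 𝓝[≠] (0 : ℂ), t ≠ 0 := eventually_mem_nhdsWithin
    filter_upwards [h2, h3] with t ht1 ht2
    exact key t ht2 ht1
  exact hclosed.mem_of_tendsto hlim hev

end conj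

end Pool.Agent.PrimIdx
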