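import Mathlib

/-! # Quantum channels, primitivity and the primitivity index -/

namespace Pool.Agent.PrimIdx

open Matrix
open scoped ComplexOrder

/-- `T` is a quantum channel on the `D × D` complex matrices: there are Kraus operators
`K 0, …, K (d - 1)` (any number `d`) with `∑ (K i)ᴴ * K i = 1` and `T X = ∑ K i * X * (K i)ᴴ`. -/
def IsChannel {D : ℕ} (T : Module.End ℂ (Matrix (Fin D) (Fin D) ℂ)) : Prop :=
  ∃ (d : ℕ) (K : Fin d → Matrix (Fin D) (Fin D) ℂ),
    ∑ i, (K i)ᴴ * K i = 1 ∧ ∀ X, T X = ∑ i, K i * X * (K i)ᴴ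

/-- the `n`-fold composition of `T` maps every nonzero positive semidefinite matrix to a matrix of
full rank `D` -/
def FullAt {D : ℕ} (T : Module.End ℂ (Matrix (Fin D) (Fin D) ℂ)) (n : ℕ) : Prop :=
  ∀ ρ : Matrix (Fin D) (Fin D) ℂ, ρ.PosSemidef → ρ ≠ 0 → ((T ^ n) ρ).rank = D

/-- `T` is primitive -/
def IsPrimitive {D : ℕ} (T : Module.End ℂ (Matrix (Fin D) (Fin D) ℂ)) : Prop :=
  ∃ n, FullAt T n

/-- the primitivity index: the least `n` such that `T ^ n` maps every nonzero positive semidefinite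
matrix to a matrix of full rank -/
noncomputable def primIndex {D : ℕ} (T : Module.End ℂ (Matrix (Fin D) (Fin D) ℂ)) : ℕ :=
  sInf {n | FullAt T n}

end Pool.Agent.PrimIdx
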