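import Pool.Agent.MP_8bfff4_mp.PartI

/-! # A span acting transitively on lines at one level is eventually everything -/

namespace Pool.Agent.PrimIdx

open Matrix Module

variable {D : ℕ} {A : Submodule ℂ (Mt D)}

/-- trace duality -/
lemma exists_trace_functional (g : Mt D →ₗ[ℂ] ℂ) : ∃ Z : Mt D, ∀ B, g B = (B * Z).trace := by
  refine ⟨Matrix.of (fun i j => g (Matrix.single j i 1)), ?_⟩
  intro B
  have h1 : B = ∑ i, ∑ j, B i j • (Matrix.single i j (1 : ℂ) : Mt D) := by
    conv_lhs => rw [Matrix.matrix_eq_sum_single B]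
    simp [Matrix.smul_single]
  conv_lhs => rw [h1]
  simp only [map_sum, map_smul, smul_eq_mul, Matrix.trace, Matrix.diag, Matrix.mul_apply,
    Matrix.of_apply]

lemma eq_top_of_ann {S : Submodule ℂ (Mt D)} (h : ∀ Z : Mt D, (∀ B ∈ S, (B * Z).trace = 0) → Z = 0) :
    S = ⊤ := by
  by_contra hne
  obtain ⟨x, hx⟩ : ∃ x, x ∉ S := by
    by_contra hc
    push Not at hc
    exact hne (eq_top_iff.2 (fun x _ => hc x))
  obtain ⟨g, hg, hgS⟩ := Submodule.exists_le_ker_of_notMem hx
  obtain ⟨Z, hZ⟩ := exists_trace_functional g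
  have h0 := h Z (fun B hB => by rw [← hZ]; exact hgS hB)
  apply hg
  rw [hZ, h0]
  simp

lemma trace_mul_vecMulVec (B : Mt D) (u w : Fin D → ℂ) :
    (B * Matrix.vecMulVec u w).trace = w ⬝ᵥ (B *ᵥ u) := by
  rw [Matrix.mul_vecMulVec, Matrix.trace_vecMulVec, dotProduct_comm]

lemma orb_mul (hD : 2 ≤ D) {p : ℕ} (hp : ∀ v : Fin D → ℂ, v ≠ 0 → orb A p v = ⊤) (j : ℕ)
    (v : Fin D → ℂ) (hv : v ≠ 0) : orb A ((j + 1) * p) v = ⊤ := by
  have hD0 : 0 < D := by omega
  induction j with
  | zero => simpa using hp v hv
  | succ j ih =>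
    rw [eq_top_iff]
    intro w _
    have h1 : v ∈ orb A ((j + 1) * p) v := by rw [ih]; trivial
    have h2 : w ∈ orb A p v := by rw [hp v hv]; trivial
    have := orb_add h1 h2
    rwa [show (j + 1 + 1) * p = p + (j + 1) * p by ring]

theorem full_of_transitive (hD : 2 ≤ D) (p : ℕ)
    (hp : ∀ v : Fin D → ℂ, v ≠ 0 → orb A p v = ⊤) : ∃ q, ∀ n ≥ q, A ^ n = ⊤ := by
  have key : ∀ j : ℕ, ∀ Z : Mt D, (∀ B ∈ A ^ (j * p), (B * Z).trace = 0) → Z.rank ≤ j → Z = 0 := by
    intro j
    induction j with
    | zero =>
      intro Z _ h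
      exact eq_zero_of_rank (by omega)
    | succ j ih =>
      intro Z hZ hr
      by_contra hne
      -- a nonzero column
      obtain ⟨x, hx⟩ : ∃ x : Fin D → ℂ, Z *ᵥ x ≠ 0 := by
        by_contra hc
        push Not at hc
        apply hne
        apply Matrix.ext_of_mulVec_single
        intro i
        rw [hc, Matrix.zero_mulVec]
      set φ0 := Z *ᵥ x with hφ0
      by_cases h1 : ∀ y : Fin D → ℂ, ∃ c : ℂ, Z *ᵥ y = c • φ0
      · -- rank one
        choose c hc using fun i => h1 (Pi.single i 1)
        have hZ1 : Z = Matrix.vecMulVec φ0 c := by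
          ext i k
          have := congrFun (hc k) i
          simp only [Matrix.mulVec_single_one, Matrix.col_apply, Pi.smul_apply, smul_eq_mul] at this
          rw [Matrix.vecMulVec_apply, this, mul_comm]
        have hc0 : c ≠ 0 := by
          rintro rfl
          apply hne
          rw [hZ1]; simp
        obtain ⟨i, hi⟩ : ∃ i, c i ≠ 0 := by
          by_contra h
          push Not at h
          exact hc0 (funext h)
        have h2 : (Pi.single i 1 : Fin D → ℂ) ∈ orb A ((j + 1) * p) φ0 := by
          rw [orb_mul hD hp j φ0 hx]; trivial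
        obtain ⟨B, hB, hB2⟩ := mem_orb.1 h2
        have h3 := hZ B hB
        rw [hZ1, trace_mul_vecMulVec, hB2] at h3
        simp at h3
        exact hi h3
      · push Not at h1
        obtain ⟨y, hy⟩ := h1
        set φ1 := Z *ᵥ y with hφ1
        -- linear maps
        let α : ↥(A ^ p) →ₗ[ℂ] (Fin D → ℂ) := (ev φ0).comp (A ^ p).subtype
        let β : ↥(A ^ p) →ₗ[ℂ] (Fin D → ℂ) := (ev φ1).comp (A ^ p).subtype
        have hα : LinearMap.range α = ⊤ := by
          have := hp φ0 hx
          rw [orb] at this
          rw [LinearMap.range_comp, Submodule.range_subtype, this]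
        obtain ⟨σ, hσ⟩ := LinearMap.exists_rightInverse_of_surjective α hα
        have : Nontrivial (Fin D → ℂ) := by
          have : Nonempty (Fin D) := ⟨⟨0, by omega⟩⟩
          infer_instance
        obtain ⟨μ, hμ⟩ := Module.End.exists_eigenvalue (β.comp σ)
        obtain ⟨w, hw⟩ := hμ.exists_hasEigenvector
        have hw0 : w ≠ 0 := hw.2
        have hw1 : β (σ w) = μ • w := hw.apply_eq_smul
        have hw2 : α (σ w) = w := LinearMap.congr_fun hσ w
        set B : Mt D := (σ w : Mt D) with hB
        have hBA : B ∈ A ^ p := (σ w).2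
        have hB0 : B *ᵥ φ0 = w := hw2
        have hB1 : B *ᵥ φ1 = μ • w := hw1
        have hBZ : B * Z = 0 := by
          apply ih
          · intro C hC
            rw [← mul_assoc]
            apply hZ
            rw [show (j + 1) * p = j * p + p by ring, pow_add]
            exact Submodule.mul_mem_mul hC hBA
          · -- rank decreases
            have h2 : (B * Z).rank < Z.rank := by
              rw [Matrix.rank, Matrix.rank, Matrix.mulVecLin_mul, LinearMap.range_comp]
              set S := LinearMap.range Z.mulVecLin with hS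
              have h3 := LinearMap.finrank_range_add_finrank_ker (B.mulVecLin.domRestrict S)
              rw [LinearMap.range_domRestrict] at h3
              have h4 : finrank ℂ (LinearMap.ker (B.mulVecLin.domRestrict S)) ≠ 0 := by
                intro h4
                rw [Submodule.finrank_eq_zero] at h4
                have h5 : φ1 - μ • φ0 ∈ S := by
                  refine ⟨y - μ • x, ?_⟩
                  simp [Matrix.mulVec_sub, Matrix.mulVec_smul, hφ0, hφ1]
                have h6 : (⟨φ1 - μ • φ0, h5⟩ : S) ∈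
                    LinearMap.ker (B.mulVecLin.domRestrict S) := by
                  rw [LinearMap.mem_ker, LinearMap.domRestrict_apply, Matrix.mulVecLin_apply,
                    Matrix.mulVec_sub, Matrix.mulVec_smul, hB0, hB1, sub_self]
                rw [h4, Submodule.mem_bot] at h6
                have h7 : φ1 - μ • φ0 = 0 := by simpa [Subtype.ext_iff] using h6
                exact hy μ (sub_eq_zero.1 h7)
              omega
            omega
        have h2 : (B * Z) *ᵥ x = w := by rw [← Matrix.mulVec_mulVec, ← hφ0, hB0]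
        rw [hBZ, Matrix.zero_mulVec] at h2
        exact hw0 h2.symm
  -- conclusion
  have htop : A ^ (D * p) = ⊤ := by
    apply eq_top_of_ann
    intro Z hZ
    exact key D Z hZ (by simpa using Matrix.rank_le_width Z)
  have hp1 : 1 ≤ p := by
    rcases Nat.eq_zero_or_pos p with h | h
    · exfalso
      rw [h, Nat.mul_zero, pow_zero] at htop
      have h1 : finrank ℂ ↥(1 : Submodule ℂ (Mt D)) ≤ 1 := by
        rw [Submodule.one_eq_span]
        exact (finrank_span_le_card _).trans (by simp)
      rw [htop, finrank_top, finrank_Mt] at h1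
      nlinarith
    · exact h
  refine ⟨D * p, ?_⟩
  intro n hn
  induction n, hn using Nat.le_induction with
  | base => exact htop
  | succ n hn ih =>
    rw [eq_top_iff]
    intro Z _
    have h1 : (1 : Mt D) ∈ A * A ^ (D * p - 1) := by
      rw [← pow_succ', Nat.sub_add_cancel (by nlinarith), htop]
      trivial
    have h2 : 1 * Z ∈ (A * A ^ (D * p - 1)) * ⊤ := Submodule.mul_mem_mul h1 trivial
    rw [one_mul, mul_assoc] at h2
    rw [pow_succ', ih]
    exact (mul_le_mul' le_rfl le_top : A * (A ^ (D * p - 1) * ⊤) ≤ A * ⊤) h2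

end Pool.Agent.PrimIdx
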