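import Mathlib

/-! # Polynomial maps, generic properties along lines -/

namespace Pool.Agent.PrimIdx

open Matrix Module

section Poly

variable {E F : Type*} [AddCommGroup E] [Module ℂ E] [AddCommGroup F] [Module ℂ F]

/-- the space of polynomial maps `ℂ → E` -/
def polyMaps (E : Type*) [AddCommGroup E] [Module ℂ E] : Submodule ℂ (ℂ → E) :=
  Submodule.span ℂ {g | ∃ (n : ℕ) (c : E), g = fun t => t ^ n • c}

/-- polynomial map `ℂ → E` -/
def IsPoly (f : ℂ → E) : Prop := f ∈ polyMaps E

lemma IsPoly.const (c : E) : IsPoly (fun _ => c) := by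
  apply Submodule.subset_span
  exact ⟨0, c, by simp⟩

lemma IsPoly.lin (u v : E) : IsPoly (fun t => u + t • v) := by
  apply Submodule.add_mem (polyMaps E) (IsPoly.const u)
  apply Submodule.subset_span
  exact ⟨1, v, by simp⟩

lemma IsPoly.add {f g : ℂ → E} (hf : IsPoly f) (hg : IsPoly g) : IsPoly (fun t => f t + g t) :=
  Submodule.add_mem (polyMaps E) hf hg

lemma IsPoly.sub {f g : ℂ → E} (hf : IsPoly f) (hg : IsPoly g) : IsPoly (fun t => f t - g t) :=
  Submodule.sub_mem (polyMaps E) hf hg

lemma IsPoly.smul {f : ℂ → E} (c : ℂ) (hf : IsPoly f) : IsPoly (fun t => c • f t) :=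
  Submodule.smul_mem (polyMaps E) c hf

lemma IsPoly.sum {ι : Type*} (s : Finset ι) {f : ι → ℂ → E} (hf : ∀ i ∈ s, IsPoly (f i)) :
    IsPoly (fun t => ∑ i ∈ s, f i t) := by
  have := Submodule.sum_mem (polyMaps E) (t := s) (f := f) hf
  have he : (∑ i ∈ s, f i) = fun t => ∑ i ∈ s, f i t := by
    funext t; simp
  rw [he] at this
  exact this

lemma IsPoly.map (L : E →ₗ[ℂ] F) {f : ℂ → E} (hf : IsPoly f) : IsPoly (fun t => L (f t)) := by
  have hf' : f ∈ Submodule.span ℂ {g | ∃ (n : ℕ) (c : E), g = fun t => t ^ n • c} := hf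
  induction hf' using Submodule.span_induction with
  | mem x hx =>
    obtain ⟨n, c, rfl⟩ := hx
    apply Submodule.subset_span
    exact ⟨n, L c, by funext t; simp⟩
  | zero => simpa using IsPoly.const (0 : F)
  | add x y hx hy h1 h2 => simpa using IsPoly.add (h1 hx) (h2 hy)
  | smul a x hx h => simpa using IsPoly.smul a (h hx)

lemma IsPoly.mul {R : Type*} [Ring R] [Algebra ℂ R] {f g : ℂ → R} (hf : IsPoly f)
    (hg : IsPoly g) : IsPoly (fun t => f t * g t) := by
  have hf' : f ∈ Submodule.span ℂ {g | ∃ (n : ℕ) (c : R), g = fun t => t ^ n • c} := hf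
  induction hf' using Submodule.span_induction with
  | mem x hx =>
    obtain ⟨n, c, rfl⟩ := hx
    have hg' : g ∈ Submodule.span ℂ {g | ∃ (n : ℕ) (c : R), g = fun t => t ^ n • c} := hg
    induction hg' using Submodule.span_induction with
    | mem y hy =>
      obtain ⟨m, d, rfl⟩ := hy
      apply Submodule.subset_span
      refine ⟨n + m, c * d, ?_⟩
      funext t
      simp [pow_add, smul_smul, mul_comm]
    | zero => simpa using IsPoly.const (0 : R)
    | add x y hx hy h1 h2 => simpa [mul_add] using IsPoly.add (h1 hx) (h2 hy)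
    | smul a x hx h => simpa using IsPoly.smul a (h hx)
  | zero => simpa using IsPoly.const (0 : R)
  | add x y hx hy h1 h2 => simpa [add_mul] using IsPoly.add (h1 hx) (h2 hy)
  | smul a x hx h => simpa using IsPoly.smul a (h hx)

lemma IsPoly.prod {R ι : Type*} [CommRing R] [Algebra ℂ R] (s : Finset ι) {f : ι → ℂ → R}
    (hf : ∀ i ∈ s, IsPoly (f i)) : IsPoly (fun t => ∏ i ∈ s, f i t) := by
  classical
  induction s using Finset.induction_on with
  | empty => simpa using IsPoly.const (1 : R)
  | insert a s ha ih =>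
    have h1 : IsPoly (f a) := hf a (Finset.mem_insert_self a s)
    have h2 : IsPoly (fun t => ∏ i ∈ s, f i t) :=
      ih (fun i hi => hf i (Finset.mem_insert_of_mem hi))
    have := IsPoly.mul h1 h2
    simpa [Finset.prod_insert ha] using this

lemma IsPoly.exists_polynomial {f : ℂ → ℂ} (hf : IsPoly f) :
    ∃ p : Polynomial ℂ, ∀ t, f t = p.eval t := by
  have hf' : f ∈ Submodule.span ℂ {g | ∃ (n : ℕ) (c : ℂ), g = fun t => t ^ n • c} := hf
  clear hf
  induction hf' using Submodule.span_induction with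
  | mem x hx =>
    obtain ⟨n, c, rfl⟩ := hx
    exact ⟨Polynomial.X ^ n * Polynomial.C c, by intro t; simp; ring⟩
  | zero => exact ⟨0, by simp⟩
  | add x y hx hy h1 h2 =>
    obtain ⟨p, hp⟩ := h1
    obtain ⟨q, hq⟩ := h2
    exact ⟨p + q, by intro t; simp [hp, hq]⟩
  | smul a x hx h =>
    obtain ⟨p, hp⟩ := h
    exact ⟨Polynomial.C a * p, by intro t; simp [hp]⟩

lemma IsPoly.finite_zeros {f : ℂ → ℂ} (hf : IsPoly f) {t0 : ℂ} (h0 : f t0 ≠ 0) :
    {t | f t = 0}.Finite := by
  obtain ⟨p, hp⟩ := hf.exists_polynomial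
  have hp0 : p ≠ 0 := by
    rintro rfl
    exact h0 (by simp [hp])
  have := Polynomial.finite_setOfPred_isRoot hp0
  refine this.subset ?_
  intro t ht
  simp only [Set.mem_ofPred_eq] at ht ⊢
  rw [Polynomial.IsRoot, ← hp t, ht]

lemma IsPoly.mem_of_finite {f : ℂ → E} (hf : IsPoly f) (S : Submodule ℂ E)
    (h : {t | f t ∉ S}.Finite) (t : ℂ) : f t ∈ S := by
  by_contra hc
  obtain ⟨g, hg, hgS⟩ := Submodule.exists_le_ker_of_notMem hc
  have h1 : {t | g (f t) = 0}.Finite := (hf.map g).finite_zeros hg
  have h2 : ({t | f t ∉ S} ∪ {t | g (f t) = 0}).Finite := h.union h1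
  have h3 : ({t | f t ∉ S} ∪ {t | g (f t) = 0}) = Set.univ := by
    ext s
    simp only [Set.mem_union, Set.mem_ofPred_eq, Set.mem_univ, iff_true]
    by_cases hs : f s ∈ S
    · right
      exact hgS hs
    · left; exact hs
  rw [h3] at h2
  exact Set.infinite_univ h2

lemma IsPoly.det {r : ℕ} {f : ℂ → Matrix (Fin r) (Fin r) ℂ}
    (hf : ∀ i j, IsPoly (fun t => f t i j)) : IsPoly (fun t => (f t).det) := by
  have : (fun t => (f t).det) = fun t => ∑ σ : Equiv.Perm (Fin r),
      ((Equiv.Perm.sign σ : ℤ) : ℂ) • ∏ i, f t (σ i) i := by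
    funext t
    rw [Matrix.det_apply']
    simp
  rw [this]
  apply IsPoly.sum
  intro σ _
  apply IsPoly.smul
  apply IsPoly.prod
  intro i _
  exact hf _ _

lemma IsPoly.linearIndependent {r : ℕ} {f : Fin r → ℂ → E} (hf : ∀ i, IsPoly (f i)) {t0 : ℂ}
    (h0 : LinearIndependent ℂ (fun i => f i t0)) :
    {t | ¬ LinearIndependent ℂ (fun i => f i t)}.Finite := by
  have hinj : LinearMap.ker (Fintype.linearCombination ℂ (fun i => f i t0)) = ⊥ := by
    exact LinearMap.ker_eq_bot.2
      (linearIndependent_iff_injective_fintypeLinearCombination.1 h0)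
  obtain ⟨g, hg⟩ := LinearMap.exists_leftInverse_of_injective _ hinj
  -- g : E →ₗ (Fin r → ℂ)
  have hg1 : ∀ i, g (f i t0) = Pi.single i 1 := by
    intro i
    have := LinearMap.congr_fun hg (Pi.single i 1)
    simpa [Fintype.linearCombination_apply, Pi.single_apply] using this
  have hdet : IsPoly (fun t => (Matrix.of (fun i j => g (f i t) j)).det) := by
    apply IsPoly.det
    intro i j
    exact (hf i).map ((LinearMap.proj j).comp g)
  have h1 : (Matrix.of (fun i j => g (f i t0) j)).det ≠ 0 := by
    have : (Matrix.of (fun i j => g (f i t0) j)) = (1 : Matrix (Fin r) (Fin r) ℂ) := by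
      ext i j
      simp [hg1, Matrix.one_apply, Pi.single_apply, eq_comm]
    rw [this]; simp
  refine (hdet.finite_zeros h1).subset ?_
  intro t ht
  simp only [Set.mem_ofPred_eq] at ht ⊢
  by_contra hne
  apply ht
  have hrow : LinearIndependent ℂ (Matrix.of (fun i j => g (f i t) j)).row :=
    Matrix.linearIndependent_rows_of_det_ne_zero hne
  have h2 : LinearIndependent ℂ (g ∘ (fun i => f i t)) := hrow
  exact LinearIndependent.of_comp g h2

end Poly

section Generic

variable {E F : Type*} [AddCommGroup E] [Module ℂ E] [AddCommGroup F] [Module ℂ F]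

/-- a property which, if it holds at `u`, holds at all but finitely many points of every line
through `u` -/
def Generic (P : E → Prop) : Prop := ∀ u v : E, P u → {t : ℂ | ¬ P (u + t • v)}.Finite

lemma Generic.and {P Q : E → Prop} (hP : Generic P) (hQ : Generic Q) :
    Generic (fun u => P u ∧ Q u) := by
  intro u v h
  refine ((hP u v h.1).union (hQ u v h.2)).subset ?_
  intro t ht
  simp only [Set.mem_ofPred_eq, not_and_or] at ht
  exact ht

lemma Generic.finset {ι : Type*} (s : Finset ι) {P : ι → E → Prop} (hP : ∀ i ∈ s, Generic (P i)) :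
    Generic (fun u => ∀ i ∈ s, P i u) := by
  intro u v h
  have : {t : ℂ | ¬ ∀ i ∈ s, P i (u + t • v)} ⊆ ⋃ i ∈ s, {t : ℂ | ¬ P i (u + t • v)} := by
    intro t ht
    simp only [Set.mem_ofPred_eq, not_forall] at ht
    obtain ⟨i, hi, hn⟩ := ht
    simp only [Set.mem_iUnion]
    exact ⟨i, hi, hn⟩
  refine Set.Finite.subset ?_ this
  apply Set.Finite.biUnion s.finite_toSet
  intro i hi
  exact hP i hi u v (h i hi)

/-- on the line from `v` towards `u` (`u` generic) almost all points are generic -/
lemma Generic.line {P : E → Prop} (hP : Generic P) {u : E} (hu : P u) (v : E) :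
    {t : ℂ | ¬ P (u + t • (v - u))}.Finite := hP u (v - u) hu

lemma Generic.exists_and {P Q : E → Prop} (hP : Generic P) (hQ : Generic Q)
    (h1 : ∃ u, P u) (h2 : ∃ u, Q u) : ∃ u, P u ∧ Q u := by
  obtain ⟨u, hu⟩ := h1
  obtain ⟨v, hv⟩ := h2
  have f1 := hP u (v - u) hu
  have f2 := hQ v (u - v) hv
  have f3 : ((fun t : ℂ => 1 - t) '' {t : ℂ | ¬ Q (v + t • (u - v))}).Finite := f2.image _
  obtain ⟨t, ht⟩ := Set.Infinite.nonempty (Set.Finite.infinite_compl (f1.union f3))
  simp only [Set.mem_compl_iff, Set.mem_union, not_or] at ht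
  refine ⟨u + t • (v - u), ?_, ?_⟩
  · have := ht.1
    simpa using this
  · by_contra hq
    apply ht.2
    refine ⟨1 - t, ?_, by ring⟩
    simp only [Set.mem_ofPred_eq]
    have e : v + (1 - t) • (u - v) = u + t • (v - u) := by
      module
    rw [e]
    exact hq

lemma Generic.exists_finset {ι : Type*} (s : Finset ι) {P : ι → E → Prop}
    (hP : ∀ i ∈ s, Generic (P i)) (hne : ∀ i ∈ s, ∃ u, P i u) : ∃ u, ∀ i ∈ s, P i u := by
  classical
  induction s using Finset.induction_on with
  | empty => exact ⟨0, by simp⟩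
  | insert a s ha ih =>
    have h1 := ih (fun i hi => hP i (Finset.mem_insert_of_mem hi))
      (fun i hi => hne i (Finset.mem_insert_of_mem hi))
    obtain ⟨u, hu1, hu2⟩ := Generic.exists_and (hP a (Finset.mem_insert_self a s))
      (Generic.finset s (fun i hi => hP i (Finset.mem_insert_of_mem hi)))
      (hne a (Finset.mem_insert_self a s)) h1
    refine ⟨u, ?_⟩
    intro i hi
    rcases Finset.mem_insert.1 hi with rfl | hi
    · exact hu1
    · exact hu2 i hi

/-- the dimension of the span of a family of vectors depending polynomially (along lines) on the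
parameter is generically large -/
lemma generic_finrank_span [FiniteDimensional ℂ F] {β : Type*} (L : β → E → F)
    (hL : ∀ b u v, IsPoly (fun t => L b (u + t • v))) (r : ℕ) :
    Generic (fun u => r ≤ finrank ℂ (Submodule.span ℂ (Set.range (fun b => L b u)))) := by
  intro u v hu
  obtain ⟨κ, a, ha, hspan, hli⟩ := exists_linearIndependent' ℂ (fun b => L b u)
  have : Finite κ := hli.finite
  have := Fintype.ofFinite κ
  have hcard : Fintype.card κ = finrank ℂ (Submodule.span ℂ (Set.range (fun b => L b u))) := by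
    rw [← hspan, finrank_span_eq_card hli]
  have hr : r ≤ Fintype.card κ := hcard ▸ hu
  let e : Fin r ↪ κ := (Fin.castLEEmb hr).trans (Fintype.equivFin κ).symm.toEmbedding
  have hli2 : LinearIndependent ℂ (fun i : Fin r => L (a (e i)) u) := hli.comp e e.injective
  have hli3 : LinearIndependent ℂ (fun i : Fin r => L (a (e i)) (u + (0 : ℂ) • v)) := by
    simpa using hli2
  have hfin := IsPoly.linearIndependent (f := fun i t => L (a (e i)) (u + t • v))
    (fun i => hL _ u v) hli3
  refine hfin.subset ?_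
  intro t ht hli4
  apply ht
  have h5 := finrank_span_eq_card hli4
  simp only [Fintype.card_fin] at h5
  have h6 : Submodule.span ℂ (Set.range (fun i : Fin r => L (a (e i)) (u + t • v))) ≤
      Submodule.span ℂ (Set.range (fun b => L b (u + t • v))) := by
    apply Submodule.span_mono
    rintro _ ⟨i, rfl⟩
    exact ⟨a (e i), rfl⟩
  calc r = _ := h5.symm
    _ ≤ _ := Submodule.finrank_mono h6

end Generic

end Pool.Agent.PrimIdx
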