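import Pool.Agent.MP_8bfff4_mp.Win

/-! MP_8bfff4_mp : module (b) of the blueprint of helper1 (written by helper35). -/

namespace Pool.Agent.PrimIdx

open Matrix Module

section ideal

variable {D : ℕ}

private lemma sm (a b : Fin D) (c : ℂ) (M : Matrix (Fin D) (Fin D) ℂ) (x y : Fin D) :
    (Matrix.single a b c * M) x y = if x = a then c * M b y else 0 := by
  by_cases h : x = a
  · subst h; simp
  · simp [Matrix.single_mul_apply_of_ne, h]

private lemma ms (a b : Fin D) (c : ℂ) (M : Matrix (Fin D) (Fin D) ℂ) (x y : Fin D) :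
    (M * Matrix.single a b c) x y = if y = b then M x a * c else 0 := by
  by_cases h : y = b
  · subst h; simp
  · simp [Matrix.mul_single_apply_of_ne, h]

private lemma sa (a b : Fin D) (c : ℂ) (x y : Fin D) :
    (Matrix.single a b c) x y = if x = a then (if y = b then c else 0) else 0 := by
  rw [Matrix.single_apply]
  by_cases h : x = a <;> by_cases h' : y = b
  · simp [h, h']
  · simp [h', Ne.symm h']
  · simp [h, Ne.symm h]
  · simp [h, Ne.symm h]

variable (Q : Submodule ℂ (Matrix (Fin D) (Fin D) ℂ))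
  (hQ : ∀ X : Matrix (Fin D) (Fin D) ℂ, ∀ Y ∈ Q, X * Y - Y * X ∈ Q)

include hQ

private lemma swap_mem {a b : Fin D} (hab : a ≠ b) (h : Matrix.single a b (1 : ℂ) ∈ Q) :
    Matrix.single b a (1 : ℂ) ∈ Q := by
  have h1 := hQ (Matrix.single b a 1) _ h
  have h2 := hQ (Matrix.single b a 1) _ h1
  have h3 : Matrix.single b a (1 : ℂ) *
        (Matrix.single b a 1 * Matrix.single a b 1 - Matrix.single a b 1 * Matrix.single b a 1)
      - (Matrix.single b a 1 * Matrix.single a b 1 - Matrix.single a b 1 * Matrix.single b a 1)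
        * Matrix.single b a (1 : ℂ) = (-2 : ℂ) • Matrix.single b a (1 : ℂ) := by
    have hab' := hab.symm
    ext x y
    simp only [sm, ms, sa, Matrix.sub_apply, Matrix.smul_apply, smul_eq_mul, one_mul, mul_one]
    by_cases h1 : x = a <;> by_cases h2 : x = b <;> by_cases h3 : y = a <;>
      by_cases h4 : y = b <;> simp_all <;> norm_num
  rw [h3] at h2
  have := Q.smul_mem (-(1/2) : ℂ) h2
  rw [smul_smul] at this
  norm_num at this
  exact this

private lemma left_mem {a b : Fin D} (h : Matrix.single a b (1 : ℂ) ∈ Q) (i : Fin D) (hi : i ≠ b) :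
    Matrix.single i b (1 : ℂ) ∈ Q := by
  have h1 := hQ (Matrix.single i a 1) _ h
  simpa [hi, hi.symm] using h1

private lemma right_mem {a b : Fin D} (h : Matrix.single a b (1 : ℂ) ∈ Q) (j : Fin D) (hj : j ≠ a) :
    Matrix.single a j (1 : ℂ) ∈ Q := by
  have h1 := Q.neg_mem (hQ (Matrix.single b j 1) _ h)
  simpa [hj, hj.symm] using h1

private lemma all_mem {a b : Fin D} (hab : a ≠ b) (h : Matrix.single a b (1 : ℂ) ∈ Q)
    (i j : Fin D) (hij : i ≠ j) : Matrix.single i j (1 : ℂ) ∈ Q := by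
  by_cases hi : i = b
  · subst hi
    exact right_mem Q hQ (swap_mem Q hQ hab h) j hij.symm
  · exact right_mem Q hQ (left_mem Q hQ h i hi) j hij.symm

/-- (b') a subspace stable under all commutators which contains a nonscalar matrix contains all
`E_ij`, `i ≠ j` -/
theorem ideal_contains (B : Matrix (Fin D) (Fin D) ℂ) (hB : B ∈ Q)
    (hns : ∀ c : ℂ, B ≠ c • (1 : Matrix (Fin D) (Fin D) ℂ))
    (i j : Fin D) (hij : i ≠ j) :
    Matrix.single i j (1 : ℂ) ∈ Q := by
  by_cases hoff : ∃ a b, a ≠ b ∧ B a b ≠ 0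
  · obtain ⟨a, b, hab, hne⟩ := hoff
    refine all_mem Q hQ hab ?_ i j hij
    have h1 := hQ (Matrix.single a a 1) _ hB
    have h2 := Q.neg_mem (hQ (Matrix.single b b 1) _ h1)
    have h3 := hQ (Matrix.single a a 1) _ h2
    have h4 := Q.add_mem h2 h3
    have h5 : Matrix.single a b (1 : ℂ) = (1 / (2 * B a b)) •
      (-(Matrix.single b b (1:ℂ) * (Matrix.single a a 1 * B - B * Matrix.single a a 1)
        - (Matrix.single a a 1 * B - B * Matrix.single a a 1) * Matrix.single b b 1)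
      + (Matrix.single a a 1 *
          -(Matrix.single b b (1:ℂ) * (Matrix.single a a 1 * B - B * Matrix.single a a 1)
        - (Matrix.single a a 1 * B - B * Matrix.single a a 1) * Matrix.single b b 1)
        - -(Matrix.single b b (1:ℂ) * (Matrix.single a a 1 * B - B * Matrix.single a a 1)
        - (Matrix.single a a 1 * B - B * Matrix.single a a 1) * Matrix.single b b 1) *
          Matrix.single a a 1)) := by
      have hab' := hab.symm
      ext x y
      simp only [sm, ms, sa, Matrix.sub_apply, Matrix.smul_apply, smul_eq_mul, one_mul, mul_one,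
        Matrix.neg_apply, Matrix.add_apply]
      by_cases h1 : x = a <;> by_cases h2 : x = b <;> by_cases h3 : y = a <;>
        by_cases h4 : y = b <;> simp_all <;> field_simp <;> norm_num
    rw [h5]
    exact Q.smul_mem _ h4
  · push Not at hoff
    have : ∃ a b, B a a ≠ B b b := by
      by_contra hcon
      push Not at hcon
      refine hns (B i i) ?_
      ext x y
      by_cases hxy : x = y
      · subst hxy; simp [hcon x i]
      · simp [hoff x y hxy, Matrix.one_apply_ne hxy]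
    obtain ⟨a, b, hne⟩ := this
    have hab : a ≠ b := fun h => hne (by rw [h])
    refine all_mem Q hQ hab ?_ i j hij
    have h1 := hQ (Matrix.single a b 1) _ hB
    have h2 : Matrix.single a b (1 : ℂ) = (1 / (B b b - B a a)) •
        (Matrix.single a b 1 * B - B * Matrix.single a b 1) := by
      have hne' : B b b - B a a ≠ 0 := sub_ne_zero.mpr hne.symm
      ext x y
      simp only [sm, ms, sa, Matrix.sub_apply, Matrix.smul_apply, smul_eq_mul, one_mul, mul_one]
      by_cases h1 : x = a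
      · by_cases h2 : y = b
        · simp only [h1, h2, if_true]; field_simp
        · simp [h1, h2, hoff b y (Ne.symm h2)]
      · by_cases h2 : y = b
        · simp [h1, h2, hoff x a h1]
        · simp [h1, h2]
    rw [h2]
    exact Q.smul_mem _ h1

end ideal

section bound

variable {D : ℕ}

/-- the trace form -/
private noncomputable def trB (D : ℕ) : LinearMap.BilinForm ℂ (Matrix (Fin D) (Fin D) ℂ) :=
  LinearMap.mk₂ ℂ (fun X Y => (X * Y).trace)
    (by intro X X' Y; simp [Matrix.add_mul])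
    (by intro c X Y; simp)
    (by intro X Y Y'; simp [Matrix.mul_add])
    (by intro c X Y; simp)

private lemma trB_apply (X Y : Matrix (Fin D) (Fin D) ℂ) : trB D X Y = (X * Y).trace := rfl

private lemma trB_nondeg : (trB D).Nondegenerate := by
  constructor
  · intro X hX
    refine (Matrix.ext_iff_trace_mul_right).mpr ?_
    intro x
    simpa [trB_apply] using hX x
  · intro X hX
    refine (Matrix.ext_iff_trace_mul_left).mpr ?_
    intro x
    simpa [trB_apply] using hX x

private lemma exists_vecs (Y : Matrix (Fin D) (Fin D) ℂ)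
    (hns : ∀ c : ℂ, Y ≠ c • (1 : Matrix (Fin D) (Fin D) ℂ)) :
    ∃ v l φ u : Fin D → ℂ, φ ⬝ᵥ v = 0 ∧ φ ⬝ᵥ (Y *ᵥ v) = 1 ∧ l ⬝ᵥ u = 0 ∧ l ⬝ᵥ (Y *ᵥ u) = 1 := by
  by_cases hoff : ∃ a b, a ≠ b ∧ Y a b ≠ 0
  · obtain ⟨a, b, hab, hne⟩ := hoff
    refine ⟨Pi.single b 1, Pi.single a 1, Pi.single a (Y a b)⁻¹, Pi.single b (Y a b)⁻¹,
      ?_, ?_, ?_, ?_⟩
    · simp [hab]
    · simp [hne]
    · simp [hab]
    · simp [hne]
  · push Not at hoff
    have : ∃ a b, Y a a ≠ Y b b := by
      by_contra hcon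
      push Not at hcon
      rcases isEmpty_or_nonempty (Fin D) with hD | hD
      · exact hns 0 (Subsingleton.elim _ _)
      · obtain ⟨i⟩ := hD
        refine hns (Y i i) ?_
        ext x y
        by_cases hxy : x = y
        · subst hxy; simp [hcon x i]
        · simp [hoff x y hxy, Matrix.one_apply_ne hxy]
    obtain ⟨a, b, hne⟩ := this
    have hab : a ≠ b := fun h => hne (by rw [h])
    have hne' : Y a a - Y b b ≠ 0 := sub_ne_zero.mpr hne
    have hYab := hoff a b hab
    have hYba := hoff b a hab.symm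
    refine ⟨Pi.single a 1 + Pi.single b 1, Pi.single a 1 + Pi.single b 1,
      Pi.single a (Y a a - Y b b)⁻¹ - Pi.single b (Y a a - Y b b)⁻¹,
      Pi.single a (Y a a - Y b b)⁻¹ - Pi.single b (Y a a - Y b b)⁻¹, ?_, ?_, ?_, ?_⟩
    · simp [hab, hab.symm]
    · simp [Matrix.mulVec_add, hYab, hYba, sub_dotProduct]
      field_simp
      ring
    · simp [hab, hab.symm]
    · simp [Matrix.mulVec_sub, hYab, hYba, add_dotProduct]
      field_simp

/-- (b) proper subspace closed under commutator, containing 1, has dimension at most D^2 - (D-2) -/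
theorem lie_bound (h : Submodule ℂ (Matrix (Fin D) (Fin D) ℂ))
    (h1 : (1 : Matrix (Fin D) (Fin D) ℂ) ∈ h)
    (hbr : ∀ X ∈ h, ∀ Y ∈ h, X * Y - Y * X ∈ h) (hne : h ≠ ⊤) :
    finrank ℂ h + D ≤ D ^ 2 + 2 := by
  classical
  have hfr : finrank ℂ (Matrix (Fin D) (Fin D) ℂ) = D ^ 2 := by
    simp [Module.finrank_matrix, sq]
  set m := (trB D).orthogonal h with hm
  have hmf : finrank ℂ m = D ^ 2 - finrank ℂ h := by
    rw [hm, LinearMap.BilinForm.finrank_orthogonal trB_nondeg, hfr]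
  have hle : finrank ℂ h ≤ D ^ 2 := by rw [← hfr]; exact Submodule.finrank_le h
  have hlt : finrank ℂ h < D ^ 2 := by rw [← hfr]; exact Submodule.finrank_lt hne
  have hmne : m ≠ ⊥ := by
    intro hb
    rw [hb, finrank_bot] at hmf
    omega
  obtain ⟨Y, hYm, hY0⟩ := Submodule.exists_mem_ne_zero_of_ne_bot hmne
  have hYtr : ∀ X ∈ h, (X * Y).trace = 0 := fun X hX => hYm X hX
  have hD0 : D ≠ 0 := by rintro rfl; simp at hlt
  have hns : ∀ c : ℂ, Y ≠ c • (1 : Matrix (Fin D) (Fin D) ℂ) := by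
    intro c hc
    have h2 := hYtr 1 h1
    rw [hc] at h2
    simp [hD0] at h2
    apply hY0
    rw [hc, h2, zero_smul]
  obtain ⟨v, l, φ, u, hφv, hφYv, hlu, hlYu⟩ := exists_vecs Y hns
  -- the map ad_Y
  let ad : Matrix (Fin D) (Fin D) ℂ →ₗ[ℂ] Matrix (Fin D) (Fin D) ℂ :=
    LinearMap.mulLeft ℂ Y - LinearMap.mulRight ℂ Y
  have had : ∀ X, ad X = Y * X - X * Y := fun X => by simp [ad]
  have hadh : h.map ad ≤ m := by
    rintro _ ⟨X, hX, rfl⟩
    rw [had]
    intro X' hX'
    have h3 := hYtr _ (hbr X hX X' hX')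
    change (X' * (Y * X - X * Y)).trace = 0
    have h4 : (X' * (Y * X - X * Y)).trace = ((X * X' - X' * X) * Y).trace := by
      rw [Matrix.mul_sub, Matrix.sub_mul, Matrix.trace_sub, Matrix.trace_sub]
      congr 1
      · rw [← Matrix.mul_assoc, Matrix.trace_mul_comm, Matrix.mul_assoc]
      · rw [← Matrix.mul_assoc]
    rw [h4, h3]
  -- rank of ad
  have hrank : finrank ℂ (LinearMap.range ad) ≤ finrank ℂ m + finrank ℂ m := by
    obtain ⟨h', hh'⟩ := h.exists_isCompl
    have hsum := Submodule.finrank_add_eq_of_isCompl hh'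
    rw [hfr] at hsum
    have e1 : LinearMap.range ad = h.map ad ⊔ h'.map ad := by
      rw [← Submodule.map_sup, hh'.sup_eq_top, LinearMap.range_eq_map]
    rw [e1]
    calc finrank ℂ ↥(h.map ad ⊔ h'.map ad) ≤ finrank ℂ (h.map ad) + finrank ℂ (h'.map ad) :=
          Submodule.finrank_add_le_finrank_add_finrank _ _
      _ ≤ finrank ℂ m + finrank ℂ m := by
          apply Nat.add_le_add
          · exact Submodule.finrank_mono hadh
          · refine (Submodule.finrank_map_le ad h').trans ?_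
            omega
  -- the map Psi
  let Ψ : ((Fin D → ℂ) × (Fin D → ℂ)) →ₗ[ℂ] Matrix (Fin D) (Fin D) ℂ :=
    { toFun := fun p => ad (vecMulVec p.1 l + vecMulVec v p.2)
      map_add' := by
        intro p q
        rw [← map_add]
        congr 1
        ext i j
        simp [vecMulVec_apply]
        ring
      map_smul' := by
        intro c p
        rw [RingHom.id_apply, ← map_smul]
        congr 1
        ext i j
        simp [vecMulVec_apply]
        ring }
  have hΨ : LinearMap.range Ψ ≤ LinearMap.range ad := by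
    rintro _ ⟨p, rfl⟩
    exact ⟨_, rfl⟩
  let G : (Fin 4 → ℂ) →ₗ[ℂ] ((Fin D → ℂ) × (Fin D → ℂ)) :=
    { toFun := fun c => (c 0 • v + c 1 • (Y *ᵥ v), c 2 • l + c 3 • (l ᵥ* Y))
      map_add' := by
        intro c d
        ext i <;> simp <;> ring
      map_smul' := by
        intro c d
        ext i <;> simp <;> ring }
  have hker : LinearMap.ker Ψ ≤ LinearMap.range G := by
    rintro ⟨w, lam⟩ hp
    have hp' : Y * (vecMulVec w l + vecMulVec v lam) = (vecMulVec w l + vecMulVec v lam) * Y := by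
      have : ad (vecMulVec w l + vecMulVec v lam) = 0 := hp
      rw [had] at this
      exact sub_eq_zero.mp this
    -- apply u on the right
    have e1 := congrArg (fun M => M *ᵥ u) hp'
    simp only [← Matrix.mulVec_mulVec, Matrix.add_mulVec, Matrix.vecMulVec_mulVec] at e1
    have e2 := congrArg (fun M => φ ᵥ* M) hp'
    simp only [← Matrix.vecMul_vecMul, Matrix.vecMul_add, Matrix.vecMul_vecMulVec,
      Matrix.add_vecMul] at e2
    rw [hlu, hlYu] at e1
    rw [← Matrix.dotProduct_mulVec, ← Matrix.dotProduct_mulVec, hφv, hφYv] at e2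
    simp only [MulOpposite.op_zero, MulOpposite.op_one, zero_smul, one_smul, zero_add,
      Matrix.mulVec_smul, op_smul_eq_smul, Matrix.zero_vecMul, add_zero,
      Matrix.smul_vecMul] at e1 e2
    refine ⟨![-(lam ⬝ᵥ (Y *ᵥ u)), lam ⬝ᵥ u, -(φ ⬝ᵥ (Y *ᵥ w)), φ ⬝ᵥ w], ?_⟩
    have g1 : w = (lam ⬝ᵥ u) • (Y *ᵥ v) - (lam ⬝ᵥ (Y *ᵥ u)) • v := by
      rw [e1]; abel
    have g2 : lam = (φ ⬝ᵥ w) • (l ᵥ* Y) - (φ ⬝ᵥ (Y *ᵥ w)) • l := by
      rw [← e2]; abel
    change ((![-(lam ⬝ᵥ (Y *ᵥ u)), lam ⬝ᵥ u, -(φ ⬝ᵥ (Y *ᵥ w)), φ ⬝ᵥ w] : Fin 4 → ℂ) 0 • v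
        + (![-(lam ⬝ᵥ (Y *ᵥ u)), lam ⬝ᵥ u, -(φ ⬝ᵥ (Y *ᵥ w)), φ ⬝ᵥ w] : Fin 4 → ℂ) 1 • (Y *ᵥ v),
      (![-(lam ⬝ᵥ (Y *ᵥ u)), lam ⬝ᵥ u, -(φ ⬝ᵥ (Y *ᵥ w)), φ ⬝ᵥ w] : Fin 4 → ℂ) 2 • l
        + (![-(lam ⬝ᵥ (Y *ᵥ u)), lam ⬝ᵥ u, -(φ ⬝ᵥ (Y *ᵥ w)), φ ⬝ᵥ w] : Fin 4 → ℂ) 3 • (l ᵥ* Y))
        = (w, lam)
    refine Prod.ext ?_ ?_
    · change -(lam ⬝ᵥ (Y *ᵥ u)) • v + (lam ⬝ᵥ u) • (Y *ᵥ v) = w
      rw [neg_smul]
      conv_rhs => rw [g1]
      abel
    · change -(φ ⬝ᵥ (Y *ᵥ w)) • l + (φ ⬝ᵥ w) • (l ᵥ* Y) = lam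
      rw [neg_smul]
      conv_rhs => rw [g2]
      abel
  have hk4 : finrank ℂ (LinearMap.ker Ψ) ≤ 4 := by
    refine (Submodule.finrank_mono hker).trans ?_
    refine (LinearMap.finrank_range_le G).trans ?_
    simp
  have hrn := LinearMap.finrank_range_add_finrank_ker Ψ
  have hdom : finrank ℂ ((Fin D → ℂ) × (Fin D → ℂ)) = D + D := by simp
  rw [hdom] at hrn
  have hr1 := Submodule.finrank_mono hΨ
  omega

end bound

end Pool.Agent.PrimIdx
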