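import Pool.Agent.MP_8bfff4_mp.Win

/-! # (a) conjugation-stable subspaces are stable under the commutators with `B M⁻¹` -/

namespace Pool.Agent.PrimIdx

open Matrix Module

/-- the adjugate of an affine line of matrices is polynomial -/
lemma isPoly_adjugate {D : ℕ} (P Q : Mt D) :
    IsPoly (fun t : ℂ => (P + t • Q).adjugate) := by
  have hentry : ∀ i j : Fin D, IsPoly (fun t : ℂ => (P + t • Q).adjugate i j) := by
    intro i j
    have he : (fun t : ℂ => (P + t • Q).adjugate i j) =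
        fun t : ℂ => ((P + t • Q).updateRow j (Pi.single i 1)).det := by
      funext t
      rw [Matrix.adjugate_apply]
    rw [he]
    apply IsPoly.det
    intro a b
    by_cases ha : a = j
    · subst ha
      simpa using IsPoly.const ((Pi.single i 1 : Fin D → ℂ) b)
    · have := (IsPoly.lin (P a b) (Q a b))
      simpa [Matrix.updateRow_ne ha] using this
  have hsum : (fun t : ℂ => (P + t • Q).adjugate) =
      fun t : ℂ => ∑ i : Fin D, ∑ j : Fin D,
        (Matrix.singleLinearMap (R := ℂ) (α := ℂ) i j) ((P + t • Q).adjugate i j) := by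
    funext t
    conv_lhs => rw [Matrix.matrix_eq_sum_single ((P + t • Q).adjugate)]
    rfl
  rw [hsum]
  apply IsPoly.sum
  intro i _
  apply IsPoly.sum
  intro j _
  exact (hentry i j).map (Matrix.singleLinearMap (R := ℂ) (α := ℂ) i j)

/-- conjugation by the inverse -/
lemma conj_inv_mem {D : ℕ} {T : Submodule ℂ (Mt D)} {M : Mt D} (hMu : IsUnit M)
    (hT : ∀ Z ∈ T, M * Z * M⁻¹ ∈ T) {Z : Mt D} (hZ : Z ∈ T) : M⁻¹ * Z * M ∈ T := by
  have hdet : IsUnit M.det := (Matrix.isUnit_iff_isUnit_det _).1 hMu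
  let f : Mt D →ₗ[ℂ] Mt D := (LinearMap.mulLeft ℂ M).comp (LinearMap.mulRight ℂ M⁻¹)
  have hf : ∀ Z, f Z = M * Z * M⁻¹ := by
    intro Z
    simp [f, Matrix.mul_assoc]
  let g : T →ₗ[ℂ] T := f.restrict (fun Z hZ => by rw [hf]; exact hT Z hZ)
  have hinj : Function.Injective g := by
    intro X Y hXY
    have h1 : f X = f Y := by
      have := congrArg (Subtype.val) hXY
      simpa [g] using this
    rw [hf, hf] at h1
    apply Subtype.ext
    have h2 : M⁻¹ * (M * (X : Mt D) * M⁻¹) * M = M⁻¹ * (M * (Y : Mt D) * M⁻¹) * M := by rw [h1]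
    have h3 : ∀ W : Mt D, M⁻¹ * (M * W * M⁻¹) * M = W := by
      intro W
      calc M⁻¹ * (M * W * M⁻¹) * M = (M⁻¹ * M) * W * (M⁻¹ * M) := by
            simp only [Matrix.mul_assoc]
        _ = W := by rw [Matrix.nonsing_inv_mul _ hdet]; simp
    rwa [h3, h3] at h2
  have hsurj : Function.Surjective g := LinearMap.injective_iff_surjective.1 hinj
  obtain ⟨Y, hY⟩ := hsurj ⟨Z, hZ⟩
  have hY' : M * (Y : Mt D) * M⁻¹ = Z := by
    have := congrArg (Subtype.val) hY
    rw [← hf]
    simpa [g] using this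
  have : M⁻¹ * Z * M = Y := by
    rw [← hY']
    calc M⁻¹ * (M * (Y : Mt D) * M⁻¹) * M = (M⁻¹ * M) * Y * (M⁻¹ * M) := by
          simp only [Matrix.mul_assoc]
      _ = Y := by rw [Matrix.nonsing_inv_mul _ hdet]; simp
  rw [this]
  exact Y.2

/-- (a) if every invertible element of A normalises T then `[B M⁻¹, T] ⊆ T` -/
theorem lie_of_conj {D : ℕ} (A T : Submodule ℂ (Mt D))
    (hT : ∀ M ∈ A, IsUnit M → ∀ Z ∈ T, M * Z * M⁻¹ ∈ T)
    (B M : Mt D) (hB : B ∈ A) (hM : M ∈ A) (hMu : IsUnit M) (Z : Mt D) (hZ : Z ∈ T) :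
    (B * M⁻¹) * Z - Z * (B * M⁻¹) ∈ T := by
  have hdet : IsUnit M.det := (Matrix.isUnit_iff_isUnit_det _).1 hMu
  set x := B * M⁻¹ with hx
  -- the polynomial map
  have hpoly : IsPoly (fun t : ℂ => (x * Z - Z * x) * (1 + t • x).adjugate) :=
    IsPoly.mul (IsPoly.const _) (isPoly_adjugate 1 x)
  have hdetpoly : IsPoly (fun t : ℂ => (1 + t • x).det) := by
    apply IsPoly.det
    intro a b
    simpa using IsPoly.lin ((1 : Mt D) a b) (x a b)
  have hfin1 : {t : ℂ | (1 + t • x).det = 0}.Finite := by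
    apply hdetpoly.finite_zeros (t0 := 0)
    simp
  have hfin : {t : ℂ | (x * Z - Z * x) * (1 + t • x).adjugate ∉ T}.Finite := by
    refine (hfin1.union (Set.finite_singleton (0 : ℂ))).subset ?_
    intro t ht
    simp only [Set.mem_ofPred_eq] at ht
    by_contra hc
    simp only [Set.mem_union, Set.mem_ofPred_eq, Set.mem_singleton_iff, not_or] at hc
    obtain ⟨hd, ht0⟩ := hc
    apply ht
    have hP : IsUnit (1 + t • x).det := isUnit_iff_ne_zero.2 hd
    have hfac : M + t • B = (1 + t • x) * M := by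
      rw [add_mul, one_mul, smul_mul_assoc, hx, Matrix.mul_assoc, Matrix.nonsing_inv_mul _ hdet,
        Matrix.mul_one]
    have hMB : M + t • B ∈ A := A.add_mem hM (A.smul_mem t hB)
    have hMBu : IsUnit (M + t • B) := by
      rw [hfac]
      exact ((Matrix.isUnit_iff_isUnit_det _).2 hP).mul hMu
    have h1 : M⁻¹ * Z * M ∈ T := conj_inv_mem hMu (hT M hM hMu) hZ
    have h2 := hT _ hMB hMBu _ h1
    have h3 : (M + t • B) * (M⁻¹ * Z * M) * (M + t • B)⁻¹ =
        (1 + t • x) * Z * (1 + t • x)⁻¹ := by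
      rw [hfac, Matrix.mul_inv_rev]
      calc (1 + t • x) * M * (M⁻¹ * Z * M) * (M⁻¹ * (1 + t • x)⁻¹)
          = (1 + t • x) * ((M * M⁻¹) * Z * (M * M⁻¹)) * (1 + t • x)⁻¹ := by
            simp only [Matrix.mul_assoc]
        _ = (1 + t • x) * Z * (1 + t • x)⁻¹ := by
            rw [Matrix.mul_nonsing_inv _ hdet]
            simp
    rw [h3] at h2
    have h4 : (1 + t • x) * Z * (1 + t • x)⁻¹ - Z ∈ T := T.sub_mem h2 hZ
    have h5 : (1 + t • x) * Z * (1 + t • x)⁻¹ - Z =
        t • ((x * Z - Z * x) * (1 + t • x)⁻¹) := by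
      have h6 : Z * (1 + t • x) * (1 + t • x)⁻¹ = Z := by
        rw [Matrix.mul_assoc, Matrix.mul_nonsing_inv _ hP, Matrix.mul_one]
      calc (1 + t • x) * Z * (1 + t • x)⁻¹ - Z
          = (1 + t • x) * Z * (1 + t • x)⁻¹ - Z * (1 + t • x) * (1 + t • x)⁻¹ := by rw [h6]
        _ = ((1 + t • x) * Z - Z * (1 + t • x)) * (1 + t • x)⁻¹ := by rw [sub_mul]
        _ = (t • (x * Z - Z * x)) * (1 + t • x)⁻¹ := by
            congr 1
            rw [add_mul, mul_add, one_mul, mul_one, smul_mul_assoc, mul_smul_comm, smul_sub]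
            abel
        _ = t • ((x * Z - Z * x) * (1 + t • x)⁻¹) := by rw [smul_mul_assoc]
    rw [h5] at h4
    have h7 : (x * Z - Z * x) * (1 + t • x)⁻¹ ∈ T := by
      have := T.smul_mem t⁻¹ h4
      rwa [smul_smul, inv_mul_cancel₀ ht0, one_smul] at this
    have h8 : (x * Z - Z * x) * (1 + t • x).adjugate =
        (1 + t • x).det • ((x * Z - Z * x) * (1 + t • x)⁻¹) := by
      rw [Matrix.inv_def, mul_smul_comm, smul_smul, Ring.mul_inverse_cancel _ hP, one_smul]
    rw [h8]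
    exact T.smul_mem _ h7
  have := hpoly.mem_of_finite T hfin 0
  simpa using this

end Pool.Agent.PrimIdx
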