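import Pool.Agent.MP_8bfff4_mp.Gen

/-! # Window products of generic sequences of elements of a matrix space -/

namespace Pool.Agent.PrimIdx

open Matrix Module

/-- matrices -/
abbrev Mt (D : ℕ) := Matrix (Fin D) (Fin D) ℂ

/-- evaluation at a vector -/
def ev {D : ℕ} (v : Fin D → ℂ) : Mt D →ₗ[ℂ] (Fin D → ℂ) where
  toFun B := B *ᵥ v
  map_add' B C := by simp [Matrix.add_mulVec]
  map_smul' c B := by simp [Matrix.smul_mulVec]

@[simp] lemma ev_apply {D : ℕ} (v : Fin D → ℂ) (B : Mt D) : ev v B = B *ᵥ v := rfl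

variable {D : ℕ}

/-- window product `X_s X_{s+1} ... X_{s+l-1}` -/
def prd (X : ℕ → Mt D) (s : ℕ) : ℕ → Mt D
  | 0 => 1
  | (l + 1) => prd X s l * X (s + l)

lemma prd_zero (X : ℕ → Mt D) (s : ℕ) : prd X s 0 = 1 := rfl

lemma prd_succ (X : ℕ → Mt D) (s l : ℕ) : prd X s (l + 1) = prd X s l * X (s + l) := rfl

lemma prd_succ' (X : ℕ → Mt D) (s l : ℕ) : prd X s (l + 1) = X s * prd X (s + 1) l := by
  induction l with
  | zero => simp [prd]
  | succ l ih =>
    rw [prd_succ X s (l + 1), ih, prd_succ X (s + 1) l, mul_assoc]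
    congr 3
    omega

lemma prd_congr {X Y : ℕ → Mt D} {s s' l : ℕ} (h : ∀ i < l, X (s + i) = Y (s' + i)) :
    prd X s l = prd Y s' l := by
  induction l with
  | zero => rfl
  | succ l ih =>
    rw [prd_succ, prd_succ, ih (fun i hi => h i (by omega)), h l (by omega)]

lemma prd_isUnit {X : ℕ → Mt D} {s l : ℕ} (h : ∀ i < l, IsUnit (X (s + i))) :
    IsUnit (prd X s l) := by
  induction l with
  | zero => simp [prd]
  | succ l ih =>
    rw [prd_succ]
    exact (ih (fun i hi => h i (by omega))).mul (h l (by omega))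

variable (A : Submodule ℂ (Mt D))

/-- coercion of a sequence of elements of `A` -/
def cs {A : Submodule ℂ (Mt D)} (X : ℕ → A) : ℕ → Mt D := fun i => (X i : Mt D)

variable {A}

lemma cs_mem (X : ℕ → A) (i : ℕ) : cs X i ∈ A := (X i).2

lemma prd_mem (X : ℕ → A) (s l : ℕ) : prd (cs X) s l ∈ A ^ l := by
  induction l with
  | zero =>
    rw [prd_zero, pow_zero]
    exact Submodule.one_le.1 le_rfl
  | succ l ih =>
    rw [prd_succ, pow_succ]
    exact Submodule.mul_mem_mul ih (cs_mem X _)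

lemma isPoly_prd (u v : ℕ → A) (s l : ℕ) : IsPoly (fun t => prd (cs (u + t • v)) s l) := by
  induction l with
  | zero => simpa [prd_zero] using IsPoly.const (1 : Mt D)
  | succ l ih =>
    have h1 : IsPoly (fun t : ℂ => cs (u + t • v) (s + l)) := by
      have := IsPoly.lin (cs u (s + l)) (cs v (s + l))
      exact this
    exact IsPoly.mul ih h1

/-- products of sequences of elements of `A` span `A ^ l` -/
lemma pow_le_span (l : ℕ) (s : ℕ) :
    A ^ l ≤ Submodule.span ℂ (Set.range (fun X : ℕ → A => prd (cs X) s l)) := by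
  induction l with
  | zero =>
    rw [pow_zero, Submodule.one_le]
    apply Submodule.subset_span
    exact ⟨0, rfl⟩
  | succ l ih =>
    rw [pow_succ, Submodule.mul_le]
    intro P hP B hB
    have hP' := ih hP
    clear hP
    induction hP' using Submodule.span_induction with
    | mem x hx =>
      obtain ⟨X, rfl⟩ := hx
      apply Submodule.subset_span
      refine ⟨Function.update X (s + l) ⟨B, hB⟩, ?_⟩
      simp only [prd_succ]
      have h1 : cs (Function.update X (s + l) ⟨B, hB⟩) (s + l) = B := by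
        simp [cs]
      rw [h1]
      congr 1
      apply prd_congr
      intro i hi
      have : s + i ≠ s + l := by omega
      simp [cs, Function.update_of_ne this]
    | zero => simp
    | add x y _ _ h1 h2 => rw [add_mul]; exact Submodule.add_mem _ h1 h2
    | smul a x _ h => rw [smul_mul_assoc]; exact Submodule.smul_mem _ _ h

/-- `A^a Y` -/
def R (A : Submodule ℂ (Mt D)) (a : ℕ) (Y : Mt D) : Submodule ℂ (Mt D) :=
  A ^ a * Submodule.span ℂ {Y}

lemma mem_R {a : ℕ} {Y Z : Mt D} : Z ∈ R A a Y ↔ ∃ B ∈ A ^ a, B * Y = Z := by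
  rw [R, Submodule.mem_mul_span_singleton]

lemma R_eq_span (a : ℕ) (Y : Mt D) :
    R A a Y = Submodule.span ℂ (Set.range (fun B : ↥(A ^ a) => (B : Mt D) * Y)) := by
  apply le_antisymm
  · intro Z hZ
    obtain ⟨B, hB, rfl⟩ := mem_R.1 hZ
    exact Submodule.subset_span ⟨⟨B, hB⟩, rfl⟩
  · rw [Submodule.span_le]
    rintro _ ⟨B, rfl⟩
    exact mem_R.2 ⟨B, B.2, rfl⟩

lemma generic_R (a s l r : ℕ) :
    Generic (fun X : ℕ → A => r ≤ finrank ℂ (R A a (prd (cs X) s l))) := by
  have h := generic_finrank_span (E := ℕ → A) (F := Mt D) (β := ↥(A ^ a))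
    (fun B X => (B : Mt D) * prd (cs X) s l)
    (fun B u v => IsPoly.mul (IsPoly.const (B : Mt D)) (isPoly_prd u v s l)) r
  have e : (fun X : ℕ → A => r ≤ finrank ℂ (R A a (prd (cs X) s l))) =
      (fun u => r ≤ finrank ℂ (Submodule.span ℂ (Set.range
        (fun b : ↥(A ^ a) => (b : Mt D) * prd (cs u) s l)))) := by
    funext X
    rw [R_eq_span]
  rw [e]
  exact h

lemma finrank_Mt : finrank ℂ (Mt D) = D ^ 2 := by
  rw [Module.finrank_matrix]; simp [pow_two]

/-- the maximal dimension of `A^a X_0 ... X_{l-1}` -/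
noncomputable def fm (A : Submodule ℂ (Mt D)) (a l : ℕ) : ℕ :=
  sSup {r | ∃ X : ℕ → A, r = finrank ℂ (R A a (prd (cs X) 0 l))}

lemma fm_bdd (A : Submodule ℂ (Mt D)) (a l : ℕ) :
    BddAbove {r | ∃ X : ℕ → A, r = finrank ℂ (R A a (prd (cs X) 0 l))} := by
  refine ⟨D ^ 2, ?_⟩
  rintro _ ⟨X, rfl⟩
  rw [← finrank_Mt (D := D)]
  exact Submodule.finrank_le _

lemma le_fm (X : ℕ → A) (a s l : ℕ) : finrank ℂ (R A a (prd (cs X) s l)) ≤ fm A a l := by
  apply le_csSup (fm_bdd A a l)
  refine ⟨fun i => X (s + i), ?_⟩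
  have : prd (cs X) s l = prd (cs fun i => X (s + i)) 0 l := by
    apply prd_congr
    intro i _
    simp [cs]
  rw [this]

lemma exists_fm (A : Submodule ℂ (Mt D)) (a s l : ℕ) :
    ∃ X : ℕ → A, fm A a l ≤ finrank ℂ (R A a (prd (cs X) s l)) := by
  have hne : {r | ∃ X : ℕ → A, r = finrank ℂ (R A a (prd (cs X) 0 l))}.Nonempty :=
    ⟨_, 0, rfl⟩
  obtain ⟨X, hX⟩ := Nat.sSup_mem hne (fm_bdd A a l)
  refine ⟨fun i => X (i - s), ?_⟩
  have : prd (cs fun i => X (i - s)) s l = prd (cs X) 0 l := by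
    apply prd_congr
    intro i _
    simp [cs]
  rw [this, fm, hX]

/-- one sequence for which all window dimensions are maximal -/
lemma exists_seq (A : Submodule ℂ (Mt D)) (N : ℕ) :
    ∃ X : ℕ → A, ∀ a ≤ N, ∀ s ≤ N, ∀ l ≤ N,
      finrank ℂ (R A a (prd (cs X) s l)) = fm A a l := by
  obtain ⟨X, hX⟩ := Generic.exists_finset (E := ℕ → A)
    (Finset.range (N + 1) ×ˢ Finset.range (N + 1) ×ˢ Finset.range (N + 1))
    (P := fun i X => fm A i.1 i.2.2 ≤ finrank ℂ (R A i.1 (prd (cs X) i.2.1 i.2.2)))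
    (fun i _ => generic_R _ _ _ _) (fun i _ => exists_fm A _ _ _)
  refine ⟨X, ?_⟩
  intro a ha s hs l hl
  apply le_antisymm (le_fm X a s l)
  exact hX (a, s, l) (by simp; omega)

/-- the dimension of `End(V) Y` -/
lemma finrank_top_mul (Y : Mt D) :
    finrank ℂ (LinearMap.range (LinearMap.mulRight ℂ Y)) = D * Y.rank := by
  classical
  -- rows
  let W := LinearMap.range (Matrix.vecMulLinear Y)
  let ι : (Fin D → W) →ₗ[ℂ] Mt D :=
    { toFun := fun g => fun i j => (g i : Fin D → ℂ) j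
      map_add' := by intro a b; rfl
      map_smul' := by intro a b; rfl }
  have hinj : Function.Injective ι := by
    intro g g' h
    funext i
    apply Subtype.ext
    funext j
    exact congrFun (congrFun h i) j
  have hrange : LinearMap.range ι = LinearMap.range (LinearMap.mulRight ℂ Y) := by
    ext M
    constructor
    · rintro ⟨g, rfl⟩
      have hg : ∀ i, ∃ b : Fin D → ℂ, b ᵥ* Y = (g i : Fin D → ℂ) := by
        intro i
        obtain ⟨b, hb⟩ := (g i).2
        exact ⟨b, hb⟩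
      choose b hb using hg
      refine ⟨Matrix.of b, ?_⟩
      ext i j
      have := congrFun (hb i) j
      change (Matrix.of b * Y) i j = (g i : Fin D → ℂ) j
      rw [← this]
      simp [Matrix.mul_apply, Matrix.vecMul, dotProduct]
    · rintro ⟨B, rfl⟩
      refine ⟨fun i => ⟨B i ᵥ* Y, ⟨B i, rfl⟩⟩, ?_⟩
      ext i j
      change (B i ᵥ* Y) j = (B * Y) i j
      simp [Matrix.mul_apply, Matrix.vecMul, dotProduct]
  rw [← hrange, LinearMap.finrank_range_of_inj hinj, Module.finrank_pi_fintype]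
  simp only [Finset.sum_const, Finset.card_univ, Fintype.card_fin, smul_eq_mul]
  congr 1
  have h1 : Y.rank = Yᵀ.rank := (Matrix.rank_transpose Y).symm
  rw [h1, Matrix.rank]
  have h2 : Matrix.mulVecLin Yᵀ = Matrix.vecMulLinear Y := by
    ext x i
    simp
  rw [h2]

lemma finrank_R_top {a : ℕ} (ha : A ^ a = ⊤) (Y : Mt D) : finrank ℂ (R A a Y) = D * Y.rank := by
  have : R A a Y = LinearMap.range (LinearMap.mulRight ℂ Y) := by
    ext Z
    rw [mem_R, ha]
    simp
  rw [← finrank_top_mul, this]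

end Pool.Agent.PrimIdx
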