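import Mathlib
import Pool.Agent.MP_8bfff4_mp.Win

/-! # The extremal example -/

namespace Pool.Agent.PrimIdx

open Matrix

section Lower

variable {D : ℕ}

/-- the `k`-th standard basis vector (zero if `k ≥ D`) -/
def be (D : ℕ) (k : ℕ) : Fin D → ℂ := fun i => if (i : ℕ) = k then 1 else 0

/-- `f k = e k + e (k+1)` -/
def bf (D : ℕ) (k : ℕ) : Fin D → ℂ := be D k + be D (k + 1)

/-- the shift -/
def sN (D : ℕ) : Mt D := fun i j => if (i : ℕ) = (j : ℕ) + 1 then 1 else 0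

/-- the rank one part -/
noncomputable def sP (D : ℕ) : Mt D := fun i j =>
  if (j : ℕ) = D - 1 then (((Real.sqrt 2)⁻¹ : ℝ) : ℂ) * bf D 0 i else 0

lemma be_apply (k : ℕ) (i : Fin D) : be D k i = if (i : ℕ) = k then 1 else 0 := rfl

lemma be_of_le {k : ℕ} (h : D ≤ k) : be D k = 0 := by
  ext i
  rw [be_apply, if_neg (by have := i.2; omega)]
  rfl

lemma mulVec_be (X : Mt D) {k : ℕ} (hk : k < D) : X *ᵥ be D k = fun i => X i ⟨k, hk⟩ := by
  ext i
  rw [Matrix.mulVec, dotProduct, Finset.sum_eq_single (⟨k, hk⟩ : Fin D)]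
  · simp [be_apply]
  · intro j _ hj
    rw [be_apply, if_neg (fun h => hj (Fin.ext h)), mul_zero]
  · intro h; exact absurd (Finset.mem_univ _) h

lemma sN_be (k : ℕ) : sN D *ᵥ be D k = be D (k + 1) := by
  by_cases hk : k < D
  · rw [mulVec_be _ hk]
    rfl
  · rw [be_of_le (by omega), be_of_le (by omega), mulVec_zero]

lemma sN_bf (k : ℕ) : sN D *ᵥ bf D k = bf D (k + 1) := by
  rw [bf, mulVec_add, sN_be, sN_be, bf]

lemma sP_be_last (hD : 2 ≤ D) : sP D *ᵥ be D (D - 1) = (((Real.sqrt 2)⁻¹ : ℝ) : ℂ) • bf D 0 := by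
  rw [mulVec_be _ (by omega : D - 1 < D)]
  ext i
  simp [sP]

lemma sP_be_ne {k : ℕ} (hk : k ≠ D - 1) : sP D *ᵥ be D k = 0 := by
  by_cases h : k < D
  · rw [mulVec_be _ h]
    ext i
    simp [sP, hk]
  · rw [be_of_le (by omega), mulVec_zero]

lemma sP_bf_last (hD : 2 ≤ D) : sP D *ᵥ bf D (D - 1) = (((Real.sqrt 2)⁻¹ : ℝ) : ℂ) • bf D 0 := by
  rw [bf, mulVec_add, sP_be_last hD, sP_be_ne (by omega), add_zero]

lemma sP_bf_last' (hD : 2 ≤ D) : sP D *ᵥ bf D (D - 2) = (((Real.sqrt 2)⁻¹ : ℝ) : ℂ) • bf D 0 := by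
  rw [bf, mulVec_add, sP_be_ne (by omega), zero_add, show D - 2 + 1 = D - 1 by omega,
    sP_be_last hD]

lemma sP_bf_ne {k : ℕ} (h1 : k ≠ D - 1) (h2 : k + 1 ≠ D - 1) : sP D *ᵥ bf D k = 0 := by
  rw [bf, mulVec_add, sP_be_ne h1, sP_be_ne h2, add_zero]

lemma sqrt_ne : (((Real.sqrt 2)⁻¹ : ℝ) : ℂ) ≠ 0 := by
  have : Real.sqrt 2 ≠ 0 := by positivity
  exact_mod_cast inv_ne_zero this

/-- the Kraus operators -/
noncomputable def exK (D : ℕ) : Fin 2 → Mt D := ![sN D, sP D]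

/-- the Kraus span -/
noncomputable def exA (D : ℕ) : Submodule ℂ (Mt D) := Submodule.span ℂ (Set.range (exK D))

lemma sN_mem : sN D ∈ exA D := Submodule.subset_span ⟨0, rfl⟩

lemma sP_mem : sP D ∈ exA D := Submodule.subset_span ⟨1, rfl⟩

lemma exA_maps {U U' : Submodule ℂ (Fin D → ℂ)} (hN : ∀ u ∈ U, sN D *ᵥ u ∈ U')
    (hP : ∀ u ∈ U, sP D *ᵥ u ∈ U') {X : Mt D} (hX : X ∈ exA D) : ∀ u ∈ U, X *ᵥ u ∈ U' := by
  intro u hu
  induction hX using Submodule.span_induction with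
  | mem X hX =>
    obtain ⟨i, rfl⟩ := hX
    fin_cases i
    · exact hN u hu
    · exact hP u hu
  | zero => rw [Matrix.zero_mulVec]; exact U'.zero_mem
  | add X Y _ _ hX hY => rw [Matrix.add_mulVec]; exact U'.add_mem hX hY
  | smul c X _ hX => rw [Matrix.smul_mulVec]; exact U'.smul_mem c hX

lemma pow_step {U U' : Submodule ℂ (Fin D → ℂ)} (hN : ∀ u ∈ U, sN D *ᵥ u ∈ U')
    (hP : ∀ u ∈ U, sP D *ᵥ u ∈ U') {v : Fin D → ℂ} {k : ℕ}
    (h : ∀ Z ∈ exA D ^ k, Z *ᵥ v ∈ U) : ∀ Z ∈ exA D ^ (k + 1), Z *ᵥ v ∈ U' := by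
  intro Z hZ
  rw [pow_succ'] at hZ
  induction hZ using Submodule.mul_induction_on' with
  | mem_mul_mem X hX Y hY =>
    rw [← Matrix.mulVec_mulVec]
    exact exA_maps hN hP hX _ (h Y hY)
  | add X _ Y _ hX hY => rw [Matrix.add_mulVec]; exact U'.add_mem hX hY

/-- the reachable span from `f 0` at time `t` -/
def Wt (D t : ℕ) : Submodule ℂ (Fin D → ℂ) :=
  Submodule.span ℂ {v | ∃ j a b : ℕ, j < D ∧ t = j + a * (D - 1) + b * D ∧ v = bf D j}

lemma bf_D : bf D D = 0 := by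
  rw [bf, be_of_le le_rfl, be_of_le (by omega), add_zero]

lemma Wt_N (t : ℕ) : ∀ u ∈ Wt D t, sN D *ᵥ u ∈ Wt D (t + 1) := by
  intro u hu
  induction hu using Submodule.span_induction with
  | mem u hu =>
    obtain ⟨j, a, b, hj, ht, rfl⟩ := hu
    rw [sN_bf]
    by_cases h : j + 1 < D
    · exact Submodule.subset_span ⟨j + 1, a, b, h, by omega, rfl⟩
    · rw [show j + 1 = D by omega, bf_D]; exact Submodule.zero_mem _
  | zero => rw [mulVec_zero]; exact Submodule.zero_mem _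
  | add X Y _ _ hX hY => rw [mulVec_add]; exact Submodule.add_mem _ hX hY
  | smul c X _ hX => rw [mulVec_smul]; exact Submodule.smul_mem _ c hX

lemma Wt_P (hD : 2 ≤ D) (t : ℕ) : ∀ u ∈ Wt D t, sP D *ᵥ u ∈ Wt D (t + 1) := by
  intro u hu
  induction hu using Submodule.span_induction with
  | mem u hu =>
    obtain ⟨j, a, b, hj, ht, rfl⟩ := hu
    by_cases h : j = D - 1
    · subst h
      rw [sP_bf_last hD]
      refine Submodule.smul_mem _ _ (Submodule.subset_span ⟨0, a, b + 1, by omega, ?_, rfl⟩)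
      rw [ht, add_mul b 1 D]; omega
    · by_cases h2 : j = D - 2
      · subst h2
        rw [sP_bf_last' hD]
        refine Submodule.smul_mem _ _ (Submodule.subset_span ⟨0, a + 1, b, by omega, ?_, rfl⟩)
        rw [ht, add_mul a 1 (D - 1)]; omega
      · rw [sP_bf_ne h (by omega)]; exact Submodule.zero_mem _
  | zero => rw [mulVec_zero]; exact Submodule.zero_mem _
  | add X Y _ _ hX hY => rw [mulVec_add]; exact Submodule.add_mem _ hX hY
  | smul c X _ hX => rw [mulVec_smul]; exact Submodule.smul_mem _ c hX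

lemma first_steps (k : ℕ) (hk : k ≤ D - 1) :
    ∀ Z ∈ exA D ^ k, Z *ᵥ be D 0 ∈ Submodule.span ℂ {be D k} := by
  induction k with
  | zero =>
    intro Z hZ
    rw [pow_zero, Submodule.mem_one] at hZ
    obtain ⟨c, rfl⟩ := hZ
    rw [Algebra.algebraMap_eq_smul_one, Matrix.smul_mulVec, Matrix.one_mulVec]
    exact Submodule.smul_mem _ _ (Submodule.mem_span_singleton_self _)
  | succ k ih =>
    refine pow_step ?_ ?_ (ih (by omega))
    · intro u hu
      obtain ⟨c, rfl⟩ := Submodule.mem_span_singleton.mp hu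
      rw [mulVec_smul, sN_be]
      exact Submodule.smul_mem _ _ (Submodule.mem_span_singleton_self _)
    · intro u hu
      obtain ⟨c, rfl⟩ := Submodule.mem_span_singleton.mp hu
      rw [mulVec_smul, sP_be_ne (by omega), smul_zero]
      exact Submodule.zero_mem _

lemma later_steps (hD : 2 ≤ D) (t : ℕ) :
    ∀ Z ∈ exA D ^ (D + t), Z *ᵥ be D 0 ∈ Wt D t := by
  induction t with
  | zero =>
    have h := first_steps (D := D) (D - 1) le_rfl
    have h2 := pow_step (U' := Wt D 0) ?_ ?_ h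
    · rw [show D - 1 + 1 = D + 0 by omega] at h2
      exact h2
    · intro u hu
      obtain ⟨c, rfl⟩ := Submodule.mem_span_singleton.mp hu
      rw [mulVec_smul, sN_be, be_of_le (by omega), smul_zero]
      exact Submodule.zero_mem _
    · intro u hu
      obtain ⟨c, rfl⟩ := Submodule.mem_span_singleton.mp hu
      rw [mulVec_smul, sP_be_last hD]
      refine Submodule.smul_mem _ _ (Submodule.smul_mem _ _ (Submodule.subset_span
        ⟨0, 0, 0, by omega, by omega, rfl⟩))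
  | succ t ih =>
    exact pow_step (Wt_N t) (Wt_P hD t) ih

/-- the alternating functional -/
noncomputable def alt (D : ℕ) : (Fin D → ℂ) →ₗ[ℂ] ℂ :=
  ∑ i : Fin D, ((-1 : ℂ) ^ (i : ℕ)) • LinearMap.proj i

lemma alt_be {k : ℕ} (hk : k < D) : alt D (be D k) = (-1) ^ k := by
  rw [alt, LinearMap.sum_apply, Finset.sum_eq_single (⟨k, hk⟩ : Fin D)]
  · simp [be_apply]
  · intro j _ hj
    rw [LinearMap.smul_apply, LinearMap.proj_apply, be_apply, if_neg (fun h => hj (Fin.ext h)),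
      smul_zero]
  · intro h; exact absurd (Finset.mem_univ _) h

lemma frob (hD : 2 ≤ D) (a b : ℕ) : D ^ 2 - 2 * D ≠ (D - 1) + a * (D - 1) + b * D := by
  intro h
  obtain ⟨m, rfl⟩ : ∃ m, D = m + 2 := ⟨D - 2, by omega⟩
  have h1 : (m + 2) ^ 2 - 2 * (m + 2) = m * (m + 2) := by
    have : (m + 2) ^ 2 = m * (m + 2) + 2 * (m + 2) := by ring
    rw [this]; omega
  rw [h1, show m + 2 - 1 = m + 1 by omega] at h
  -- m (m+2) = (a+1)(m+1) + b (m+2)
  have h2 : m * (m + 2) = (a + 1) * (m + 1) + b * (m + 2) := by rw [h]; ring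
  have h3 : b < m := by
    by_contra hb
    push Not at hb
    have := Nat.mul_le_mul_right (m + 2) hb
    have h4 : 0 < (a + 1) * (m + 1) := by positivity
    omega
  -- modulo m+2 : (a+1)(m+1) ≡ 0, so m+2 ∣ a+1
  have h4 : (m + 2) ∣ (a + 1) * (m + 1) := by
    have h5 : (m + 2) ∣ (a + 1) * (m + 1) + b * (m + 2) := by rw [← h2]; exact Dvd.intro_left m rfl
    exact (Nat.dvd_add_left (Dvd.intro_left b rfl)).mp h5
  have h5 : Nat.Coprime (m + 2) (m + 1) := by
    have : Nat.Coprime (m + 1 + 1) (m + 1) := by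
      rw [Nat.coprime_comm]
      exact Nat.coprime_self_add_right.mpr (Nat.coprime_one_right _) |>.symm.symm
    exact this
  have h6 := h5.dvd_of_dvd_mul_right h4
  have h7 : m + 2 ≤ a + 1 := Nat.le_of_dvd (by omega) h6
  have h8 := Nat.mul_le_mul_right (m + 1) h7
  have h9 : (m + 2) * (m + 1) = m * (m + 2) + (m + 2) := by ring
  omega

theorem not_full (hD : 2 ≤ D) : (exA D ^ (D ^ 2 - D)).map (ev (be D 0)) ≠ ⊤ := by
  intro htop
  have h1 : ∀ v : Fin D → ℂ, v ∈ Wt D (D ^ 2 - 2 * D) := by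
    intro v
    have : v ∈ (exA D ^ (D ^ 2 - D)).map (ev (be D 0)) := by rw [htop]; trivial
    obtain ⟨Z, hZ, rfl⟩ := this
    have h2 : D ^ 2 - D = D + (D ^ 2 - 2 * D) := by
      have : 2 * D ≤ D ^ 2 := by rw [sq]; exact Nat.mul_le_mul_right D hD
      omega
    rw [h2] at hZ
    exact later_steps hD _ Z hZ
  have h2 : ∀ v ∈ Wt D (D ^ 2 - 2 * D), alt D v = 0 := by
    intro v hv
    induction hv using Submodule.span_induction with
    | mem u hu =>
      obtain ⟨j, a, b, hj, ht, rfl⟩ := hu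
      have hj2 : j ≠ D - 1 := by
        intro h
        subst h
        exact frob hD a b ht
      rw [bf, map_add, alt_be hj, alt_be (by omega), pow_succ]
      ring
    | zero => exact map_zero _
    | add X Y _ _ hX hY => rw [map_add, hX, hY, add_zero]
    | smul c X _ hX => rw [map_smul, hX, smul_zero]
  have h3 := h2 _ (h1 (be D 0))
  rw [alt_be (by omega), pow_zero] at h3
  exact one_ne_zero h3

/-! ### primitivity of the example -/

lemma orb_step {A : Submodule ℂ (Mt D)} {v w : Fin D → ℂ} {t : ℕ} {X : Mt D} (hX : X ∈ A)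
    (h : w ∈ (A ^ t).map (ev v)) : X *ᵥ w ∈ (A ^ (t + 1)).map (ev v) := by
  obtain ⟨Z, hZ, rfl⟩ := h
  refine ⟨X * Z, ?_, ?_⟩
  · rw [pow_succ']; exact Submodule.mul_mem_mul hX hZ
  · rw [ev_apply, ev_apply, Matrix.mulVec_mulVec]

lemma orb_step' {A : Submodule ℂ (Mt D)} {v z : Fin D → ℂ} {t : ℕ} {X : Mt D} (hX : X ∈ A)
    (h : z ∈ (A ^ t).map (ev (X *ᵥ v))) : z ∈ (A ^ (t + 1)).map (ev v) := by
  obtain ⟨Z, hZ, rfl⟩ := h
  refine ⟨Z * X, ?_, ?_⟩
  · rw [pow_succ]; exact Submodule.mul_mem_mul hZ hX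
  · rw [ev_apply, ev_apply, Matrix.mulVec_mulVec]

lemma orb_bf {v : Fin D → ℂ} {t j : ℕ} (h : bf D j ∈ (exA D ^ t).map (ev v)) (k : ℕ) :
    bf D (j + k) ∈ (exA D ^ (t + k)).map (ev v) := by
  induction k with
  | zero => exact h
  | succ k ih =>
    have := orb_step sN_mem ih
    rw [sN_bf] at this
    exact this

lemma mem_of_smul {W : Submodule ℂ (Fin D → ℂ)} {c : ℂ} (hc : c ≠ 0) {v : Fin D → ℂ}
    (h : c • v ∈ W) : v ∈ W := by
  have := W.smul_mem c⁻¹ h
  rwa [smul_smul, inv_mul_cancel₀ hc, one_smul] at this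

lemma orb_cyc1 (hD : 2 ≤ D) {v : Fin D → ℂ} {t : ℕ} (h : bf D 0 ∈ (exA D ^ t).map (ev v)) :
    bf D 0 ∈ (exA D ^ (t + (D - 1))).map (ev v) := by
  have h1 := orb_bf h (D - 2)
  rw [zero_add] at h1
  have h2 := orb_step sP_mem h1
  rw [sP_bf_last' hD] at h2
  rw [show t + (D - 1) = t + (D - 2) + 1 by omega]
  exact mem_of_smul sqrt_ne h2

lemma orb_cyc2 (hD : 2 ≤ D) {v : Fin D → ℂ} {t : ℕ} (h : bf D 0 ∈ (exA D ^ t).map (ev v)) :
    bf D 0 ∈ (exA D ^ (t + D)).map (ev v) := by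
  have h1 := orb_bf h (D - 1)
  rw [zero_add] at h1
  have h2 := orb_step sP_mem h1
  rw [sP_bf_last hD] at h2
  rw [show t + D = t + (D - 1) + 1 by omega]
  exact mem_of_smul sqrt_ne h2

lemma orb_cyc (hD : 2 ≤ D) {v : Fin D → ℂ} {t : ℕ} (h : bf D 0 ∈ (exA D ^ t).map (ev v))
    (a b : ℕ) : bf D 0 ∈ (exA D ^ (t + a * (D - 1) + b * D)).map (ev v) := by
  induction b with
  | zero =>
    rw [zero_mul, add_zero]
    induction a with
    | zero => rw [zero_mul, add_zero]; exact h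
    | succ a ih =>
      rw [add_mul, one_mul, ← add_assoc]
      exact orb_cyc1 hD ih
  | succ b ih =>
    rw [add_mul b 1 D, one_mul, ← add_assoc]
    exact orb_cyc2 hD ih

lemma rep (hD : 2 ≤ D) {n : ℕ} (hn : D ^ 2 ≤ n) : ∃ a b, n = a * (D - 1) + b * D := by
  obtain ⟨m, rfl⟩ : ∃ m, D = m + 1 := ⟨D - 1, by omega⟩
  have hm : 0 < m := by omega
  refine ⟨n / m - n % m, n % m, ?_⟩
  have h1 : n % m < m := Nat.mod_lt _ hm
  have h2 : m ≤ n / m := by
    rw [Nat.le_div_iff_mul_le hm]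
    calc m * m ≤ (m + 1) ^ 2 := by nlinarith
      _ ≤ n := hn
  obtain ⟨c, hc⟩ : ∃ c, n / m = c + n % m := ⟨n / m - n % m, by omega⟩
  have h3 := Nat.div_add_mod n m
  rw [hc] at h3
  rw [hc, Nat.add_sub_cancel, Nat.add_sub_cancel]
  calc n = m * (c + n % m) + n % m := h3.symm
    _ = c * m + n % m * (m + 1) := by ring

lemma sP_mulVec (hD : 2 ≤ D) (v : Fin D → ℂ) :
    sP D *ᵥ v = (v ⟨D - 1, by omega⟩ * (((Real.sqrt 2)⁻¹ : ℝ) : ℂ)) • bf D 0 := by
  ext i
  rw [Matrix.mulVec, dotProduct, Finset.sum_eq_single (⟨D - 1, by omega⟩ : Fin D)]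
  · simp only [sP, if_true, Pi.smul_apply, smul_eq_mul]
    ring
  · intro j _ hj
    rw [sP, if_neg (fun h => hj (Fin.ext h)), zero_mul]
  · intro h; exact absurd (Finset.mem_univ _) h

lemma sN_mulVec_succ (v : Fin D → ℂ) (i : Fin D) (hi : (i : ℕ) + 1 < D) :
    (sN D *ᵥ v) ⟨(i : ℕ) + 1, hi⟩ = v i := by
  rw [Matrix.mulVec, dotProduct, Finset.sum_eq_single i]
  · simp [sN]
  · intro j _ hj
    rw [sN, if_neg, zero_mul]
    intro h
    exact hj (Fin.ext (by simpa using h.symm))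
  · intro h; exact absurd (Finset.mem_univ _) h

lemma reach (hD : 2 ≤ D) (k : ℕ) : ∀ v : Fin D → ℂ, (∃ i : Fin D, v i ≠ 0 ∧ D - 1 ≤ (i : ℕ) + k) →
    ∃ t0 ≤ k + 1, bf D 0 ∈ (exA D ^ t0).map (ev v) := by
  have hlast : ∀ v : Fin D → ℂ, v ⟨D - 1, by omega⟩ ≠ 0 →
      bf D 0 ∈ (exA D ^ 1).map (ev v) := by
    intro v hv
    have h0 : v ∈ (exA D ^ 0).map (ev v) := ⟨1, by rw [pow_zero]; exact Submodule.one_le.mp le_rfl,
      by rw [ev_apply, Matrix.one_mulVec]⟩
    have h1 := orb_step sP_mem h0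
    rw [sP_mulVec hD] at h1
    exact mem_of_smul (mul_ne_zero hv sqrt_ne) h1
  induction k with
  | zero =>
    rintro v ⟨i, hi, hk⟩
    refine ⟨1, le_rfl, hlast v ?_⟩
    have : i = ⟨D - 1, by omega⟩ := Fin.ext (by have := i.2; simp only; omega)
    rwa [← this]
  | succ k ih =>
    rintro v ⟨i, hi, hk⟩
    by_cases hl : v ⟨D - 1, by omega⟩ = 0
    · have hi2 : (i : ℕ) + 1 < D := by
        by_contra hcon
        apply hi
        have : i = ⟨D - 1, by omega⟩ := Fin.ext (by have := i.2; simp only; omega)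
        rwa [this]
      obtain ⟨t0, ht0, h⟩ := ih (sN D *ᵥ v) ⟨⟨(i : ℕ) + 1, hi2⟩, by rwa [sN_mulVec_succ], by
        simp only; omega⟩
      exact ⟨t0 + 1, by omega, orb_step' sN_mem h⟩
    · exact ⟨1, by omega, hlast v hl⟩

lemma be_mem {W : Submodule ℂ (Fin D → ℂ)} (h : ∀ j < D, bf D j ∈ W) (k : ℕ) :
    be D (D - k) ∈ W := by
  induction k with
  | zero => rw [be_of_le (by omega)]; exact W.zero_mem
  | succ k ih =>
    by_cases hk : k + 1 ≤ D
    · have h1 := h (D - (k + 1)) (by omega)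
      rw [bf, show D - (k + 1) + 1 = D - k by omega] at h1
      have := W.sub_mem h1 ih
      rwa [add_sub_cancel_right] at this
    · rw [show D - (k + 1) = D - k by omega]; exact ih

lemma top_of_bf {W : Submodule ℂ (Fin D → ℂ)} (h : ∀ j < D, bf D j ∈ W) : W = ⊤ := by
  rw [eq_top_iff]
  intro v _
  have h1 : v = ∑ i : Fin D, v i • be D (i : ℕ) := by
    ext j
    rw [Finset.sum_apply, Finset.sum_eq_single j]
    · simp [be_apply]
    · intro i _ hi
      rw [Pi.smul_apply, be_apply, if_neg (fun h => hi (Fin.ext h.symm)), smul_zero]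
    · intro h; exact absurd (Finset.mem_univ _) h
  rw [h1]
  refine Submodule.sum_mem _ fun i _ => Submodule.smul_mem _ _ ?_
  have := be_mem h (D - (i : ℕ))
  rwa [show D - (D - (i : ℕ)) = (i : ℕ) by have := i.2; omega] at this

theorem ex_primitive (hD : 2 ≤ D) :
    ∀ v : Fin D → ℂ, v ≠ 0 → (exA D ^ (D + D ^ 2 + D)).map (ev v) = ⊤ := by
  intro v hv
  obtain ⟨i, hi⟩ := Function.ne_iff.mp hv
  obtain ⟨t0, ht0, h⟩ := reach hD (D - 1) v ⟨i, hi, by omega⟩
  apply top_of_bf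
  intro j hj
  obtain ⟨n, hn⟩ : ∃ n, D + D ^ 2 + D = t0 + n + j := ⟨D + D ^ 2 + D - t0 - j, by omega⟩
  obtain ⟨a, b, hab⟩ := rep hD (n := n) (by omega)
  have h1 := orb_bf (orb_cyc hD h a b) j
  rw [zero_add] at h1
  rw [hn, hab, ← add_assoc]
  exact h1

lemma kraus_sum (hD : 2 ≤ D) : ∑ i, (exK D i)ᴴ * exK D i = 1 := by
  rw [Fin.sum_univ_two]
  show (sN D)ᴴ * sN D + (sP D)ᴴ * sP D = 1
  ext i j
  have hN : ((sN D)ᴴ * sN D) i j = if i = j ∧ (i : ℕ) + 1 < D then 1 else 0 := by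
    rw [Matrix.mul_apply]
    by_cases h : (i : ℕ) + 1 < D
    · rw [Finset.sum_eq_single (⟨(i : ℕ) + 1, h⟩ : Fin D)]
      · simp only [conjTranspose_apply, sN, if_true, star_one, one_mul]
        by_cases hij : i = j
        · subst hij; simp [h]
        · rw [if_neg, if_neg]
          · exact fun h => hij h.1
          · intro h; exact hij (Fin.ext (by simpa using h))
      · intro k _ hk
        rw [conjTranspose_apply, sN, if_neg (fun h => hk (Fin.ext h)), star_zero, zero_mul]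
      · intro h; exact absurd (Finset.mem_univ _) h
    · rw [if_neg (fun h2 => h h2.2)]
      refine Finset.sum_eq_zero fun k _ => ?_
      rw [conjTranspose_apply, sN, if_neg (by have := k.2; omega), star_zero, zero_mul]
  have hP : ((sP D)ᴴ * sP D) i j = if i = j ∧ (i : ℕ) + 1 = D then 1 else 0 := by
    rw [Matrix.mul_apply]
    by_cases h : (i : ℕ) + 1 = D ∧ (j : ℕ) + 1 = D
    · have hij : i = j := Fin.ext (by omega)
      subst hij
      rw [if_pos ⟨rfl, h.1⟩]
      have h1 : ∀ k : Fin D, (sP D)ᴴ i k * sP D k i = (2 : ℂ)⁻¹ * bf D 0 k := by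
        intro k
        rw [conjTranspose_apply, sP, if_pos (by omega)]
        have h2 : star (bf D 0 k) * bf D 0 k = bf D 0 k := by
          simp only [bf, be, Pi.add_apply]
          by_cases h0 : (k : ℕ) = 0
          · simp [h0]
          · by_cases h1 : (k : ℕ) = 1
            · simp [h1]
            · simp [h0, h1]
        have h3 : star ((((Real.sqrt 2)⁻¹ : ℝ) : ℂ)) * (((Real.sqrt 2)⁻¹ : ℝ) : ℂ) = (2 : ℂ)⁻¹ := by
          rw [Complex.star_def, Complex.conj_ofReal, ← Complex.ofReal_mul, ← mul_inv,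
            Real.mul_self_sqrt (by norm_num)]
          norm_num
        rw [star_mul]
        calc star (bf D 0 k) * star ((((Real.sqrt 2)⁻¹ : ℝ) : ℂ)) *
              ((((Real.sqrt 2)⁻¹ : ℝ) : ℂ) * bf D 0 k)
            = (star ((((Real.sqrt 2)⁻¹ : ℝ) : ℂ)) * (((Real.sqrt 2)⁻¹ : ℝ) : ℂ)) *
              (star (bf D 0 k) * bf D 0 k) := by ring
          _ = _ := by rw [h2, h3]
      rw [Finset.sum_congr rfl fun k _ => h1 k, ← Finset.mul_sum]
      have h4 : ∑ k, bf D 0 k = 2 := by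
        have h5 : ∀ m, m < D → ∑ k, be D m k = 1 := by
          intro m hm
          rw [Finset.sum_eq_single (⟨m, hm⟩ : Fin D)]
          · simp [be_apply]
          · intro k _ hk
            rw [be_apply, if_neg (fun h => hk (Fin.ext h))]
          · intro h; exact absurd (Finset.mem_univ _) h
        simp only [bf, Pi.add_apply, Finset.sum_add_distrib]
        rw [h5 0 (by omega), h5 (0 + 1) (by omega)]
        norm_num
      rw [h4]; norm_num
    · rw [if_neg]
      · refine Finset.sum_eq_zero fun k _ => ?_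
        rw [conjTranspose_apply]
        by_cases hi : (i : ℕ) = D - 1
        · have hj : (j : ℕ) ≠ D - 1 := by
            intro hj; apply h; constructor <;> omega
          rw [sP, sP, if_neg hj, mul_zero]
        · rw [sP, if_neg hi, star_zero, zero_mul]
      · rintro ⟨hij, hi⟩
        subst hij
        exact h ⟨hi, hi⟩
  rw [Matrix.add_apply, hN, hP, Matrix.one_apply]
  by_cases hij : i = j
  · subst hij
    by_cases hi : (i : ℕ) + 1 = D
    · rw [if_neg (by omega), if_pos ⟨rfl, hi⟩]; simp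
    · rw [if_pos ⟨rfl, by have := i.2; omega⟩, if_neg (fun h => hi h.2)]; simp
  · rw [if_neg (fun h => hij h.1), if_neg (fun h => hij h.1), if_neg hij, add_zero]

end Lower

end Pool.Agent.PrimIdx
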