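import Pool.Agent.MP_8bfff4_mp.Win

/-! # Part I : spans without invertible elements -/

namespace Pool.Agent.PrimIdx

open Matrix Module

variable {D : ℕ} {A : Submodule ℂ (Mt D)}

/-- the set `A^n v` -/
def orb (A : Submodule ℂ (Mt D)) (n : ℕ) (v : Fin D → ℂ) : Submodule ℂ (Fin D → ℂ) :=
  (A ^ n).map (ev v)

lemma mem_orb {n : ℕ} {v w : Fin D → ℂ} : w ∈ orb A n v ↔ ∃ B ∈ A ^ n, B *ᵥ v = w := by
  simp [orb]

lemma orb_add {a b : ℕ} {v w u : Fin D → ℂ} (h1 : w ∈ orb A a v) (h2 : u ∈ orb A b w) :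
    u ∈ orb A (b + a) v := by
  obtain ⟨B, hB, rfl⟩ := mem_orb.1 h1
  obtain ⟨C, hC, rfl⟩ := mem_orb.1 h2
  refine mem_orb.2 ⟨C * B, ?_, by rw [Matrix.mulVec_mulVec]⟩
  rw [pow_add]
  exact Submodule.mul_mem_mul hC hB

/-- `A V = V`, hence filling persists -/
lemma orb_succ (hfull : ∃ q, ∀ n ≥ q, A ^ n = ⊤) {n : ℕ} {v : Fin D → ℂ}
    (h : orb A n v = ⊤) : orb A (n + 1) v = ⊤ := by
  obtain ⟨q, hq⟩ := hfull
  have key : ∀ C ∈ A * A ^ q, ∀ w : Fin D → ℂ, C *ᵥ w ∈ orb A (n + 1) v := by
    intro C hC w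
    induction hC using Submodule.mul_induction_on' with
    | mem_mul_mem B hB E hE =>
      have h1 : E *ᵥ w ∈ orb A n v := by rw [h]; trivial
      obtain ⟨G, hG, hG2⟩ := mem_orb.1 h1
      refine mem_orb.2 ⟨B * G, ?_, ?_⟩
      · rw [pow_succ']
        exact Submodule.mul_mem_mul hB hG
      · rw [← Matrix.mulVec_mulVec, hG2, Matrix.mulVec_mulVec]
    | add x _ y _ hx hy =>
      rw [Matrix.add_mulVec]
      exact Submodule.add_mem _ hx hy
  rw [eq_top_iff]
  intro w _
  have h1 : (1 : Mt D) ∈ A * A ^ q := by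
    rw [← pow_succ', hq (q + 1) (by omega)]
    trivial
  have := key 1 h1 w
  simpa using this

lemma orb_le (hfull : ∃ q, ∀ n ≥ q, A ^ n = ⊤) {n m : ℕ} (hnm : n ≤ m) {v : Fin D → ℂ}
    (h : orb A n v = ⊤) : orb A m v = ⊤ := by
  induction m, hnm using Nat.le_induction with
  | base => exact h
  | succ m _ ih => exact orb_succ hfull ih

lemma orb_top {n : ℕ} (hn : A ^ n = ⊤) {v : Fin D → ℂ} (hv : v ≠ 0) : orb A n v = ⊤ := by
  rw [eq_top_iff]
  intro w _
  obtain ⟨j, hj⟩ : ∃ j, v j ≠ 0 := by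
    by_contra hc
    push Not at hc
    exact hv (funext hc)
  refine mem_orb.2 ⟨Matrix.vecMulVec w (Pi.single j (v j)⁻¹), by rw [hn]; trivial, ?_⟩
  ext i
  simp [Matrix.mulVec, Matrix.vecMulVec_apply, dotProduct, Pi.single_apply, hj, mul_assoc]

/-- the span of `A^l v`, `l ≤ i` -/
def U (A : Submodule ℂ (Mt D)) (v : Fin D → ℂ) (i : ℕ) : Submodule ℂ (Fin D → ℂ) :=
  ⨆ l ∈ Finset.range (i + 1), orb A l v

lemma orb_le_U {v : Fin D → ℂ} {i l : ℕ} (h : l ≤ i) : orb A l v ≤ U A v i := by
  unfold U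
  exact le_iSup₂_of_le l (by simp; omega) le_rfl

lemma U_mono {v : Fin D → ℂ} {i j : ℕ} (h : i ≤ j) : U A v i ≤ U A v j := by
  refine iSup₂_le ?_
  intro l hl
  simp at hl
  exact orb_le_U (by omega)

lemma U_succ_eq {v : Fin D → ℂ} {i : ℕ} (h : U A v (i + 1) = U A v i) :
    U A v (i + 2) = U A v (i + 1) := by
  apply le_antisymm _ (U_mono (by omega))
  have h1 : orb A (i + 2) v ≤ U A v (i + 1) := by
    intro w hw
    obtain ⟨B, hB, rfl⟩ := mem_orb.1 hw
    rw [show i + 2 = (i + 1) + 1 by ring, pow_succ'] at hB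
    clear hw
    induction hB using Submodule.mul_induction_on' with
    | mem_mul_mem X hX Y hY =>
      have h2 : Y *ᵥ v ∈ U A v i := by
        rw [← h]
        exact orb_le_U le_rfl (mem_orb.2 ⟨Y, hY, rfl⟩)
      rw [← Matrix.mulVec_mulVec]
      -- X U_i ⊆ U_{i+1}
      have h3 : U A v i ≤ (U A v (i + 1)).comap (Matrix.mulVecLin X) := by
        unfold U
        apply iSup₂_le
        intro l hl z hz
        obtain ⟨Z, hZ, rfl⟩ := mem_orb.1 hz
        have h4 : X *ᵥ (Z *ᵥ v) ∈ orb A (l + 1) v := by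
          refine mem_orb.2 ⟨X * Z, ?_, by rw [Matrix.mulVec_mulVec]⟩
          rw [pow_succ']
          exact Submodule.mul_mem_mul hX hZ
        simp at hl
        exact orb_le_U (i := i + 1) (by omega) h4
      exact h3 h2
    | add x _ y _ hx hy =>
      rw [Matrix.add_mulVec]
      exact Submodule.add_mem _ hx hy
  unfold U
  apply iSup₂_le
  intro l hl
  rcases Nat.lt_or_ge l (i + 2) with h2 | h2
  · exact orb_le_U (by omega)
  · have : l = i + 2 := by simp at hl; omega
    rw [this]; exact h1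

lemma U_finrank (hfull : ∃ q, ∀ n ≥ q, A ^ n = ⊤) {v : Fin D → ℂ} (hv : v ≠ 0) (i : ℕ)
    (hi : i < D) : i + 1 ≤ finrank ℂ (U A v i) := by
  have hstab : ∀ i, U A v (i + 1) = U A v i → U A v i = ⊤ := by
    intro i h
    have h1 : ∀ j, U A v (i + j) = U A v i ∧ U A v (i + j + 1) = U A v i := by
      intro j
      induction j with
      | zero => exact ⟨rfl, h⟩
      | succ j ih =>
        refine ⟨ih.2, ?_⟩
        have := U_succ_eq (A := A) (v := v) (i := i + j) (by rw [ih.1, ih.2])
        rw [show i + (j + 1) + 1 = i + j + 2 by ring, this, ih.2]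
    obtain ⟨q, hq⟩ := hfull
    have h2 : orb A (i + q) v ≤ U A v (i + q) := orb_le_U le_rfl
    rw [orb_top (hq (i + q) (by omega)) hv, (h1 q).1] at h2
    exact eq_top_iff.2 h2
  induction i with
  | zero =>
    have h0 : v ∈ U A v 0 := by
      apply orb_le_U le_rfl
      refine mem_orb.2 ⟨1, ?_, by simp⟩
      rw [pow_zero]; exact Submodule.one_le.1 le_rfl
    have h1 : 0 < finrank ℂ (U A v 0) := by
      rw [Module.finrank_pos_iff_exists_ne_zero]
      exact ⟨⟨v, h0⟩, by simpa [Subtype.ext_iff] using hv⟩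
    omega
  | succ i ih =>
    have ih' := ih (by omega)
    by_cases h : U A v (i + 1) = U A v i
    · rw [h, hstab i h, finrank_top]
      simp; omega
    · have hlt : U A v i < U A v (i + 1) := lt_of_le_of_ne (U_mono (by omega)) (Ne.symm h)
      have := Submodule.finrank_lt_finrank_of_lt hlt
      omega

lemma eq_zero_of_rank {Y : Mt D} (h : Y.rank = 0) : Y = 0 := by
  rw [Matrix.rank, Submodule.finrank_eq_zero, LinearMap.range_eq_bot] at h
  ext i j
  have := congrFun (LinearMap.congr_fun h (Pi.single j 1)) i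
  simpa using this

/-- Part I : no invertible element in the span -/
theorem partI (hD : 2 ≤ D) (hfull : ∃ q, ∀ n ≥ q, A ^ n = ⊤)
    (hsing : ∀ B ∈ A, ¬ IsUnit B) (v : Fin D → ℂ) (hv : v ≠ 0) :
    orb A (D ^ 2 - D + 1) v = ⊤ := by
  obtain ⟨q, hq⟩ := hfull
  set N := q + D ^ 2 + D + 4 with hN
  obtain ⟨X, hX⟩ := exists_seq A N
  have hqN : A ^ N = ⊤ := hq N (by omega)
  -- ranks
  have hrk : ∀ s ≤ N, ∀ l ≤ N, D * (prd (cs X) s l).rank = fm A N l := by
    intro s hs l hl
    rw [← finrank_R_top hqN, hX N le_rfl s hs l hl]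
  set ρ : ℕ → ℕ := fun l => (prd (cs X) 0 l).rank with hρ
  have hρs : ∀ s ≤ N, ∀ l ≤ N, (prd (cs X) s l).rank = ρ l := by
    intro s hs l hl
    have h1 := hrk s hs l hl
    have h2 := hrk 0 (by omega) l hl
    rw [← h2] at h1
    exact Nat.eq_of_mul_eq_mul_left (by omega) h1
  have hρ0 : ρ 0 = D := by simp [hρ, prd_zero]
  have hρ1 : ρ 1 < D := by
    have h1 : ρ 1 ≤ D := by simpa using Matrix.rank_le_width (prd (cs X) 0 1)
    rcases Nat.lt_or_ge (ρ 1) D with h | h
    · exact h
    exfalso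
    have h2 : (cs X 0).rank = Fintype.card (Fin D) := by
      have : prd (cs X) 0 1 = cs X 0 := by simp [prd]
      rw [← this, Fintype.card_fin]
      exact le_antisymm h1 h
    apply hsing _ (cs_mem X 0)
    rw [← Matrix.linearIndependent_cols_iff_isUnit]
    rw [Matrix.rank_eq_finrank_span_cols] at h2
    exact linearIndependent_iff_card_eq_finrank_span.2 h2.symm
  have hρpos : ∀ l ≤ N, 1 ≤ ρ l := by
    intro l hl
    rcases Nat.eq_zero_or_pos (ρ l) with h | h
    · exfalso
      have h1 : fm A N l = 0 := by rw [← hrk 0 (by omega) l hl]; rw [hρ] at h; simp [h]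
      have h2 : ∀ Y : ℕ → A, prd (cs Y) 0 l = 0 := by
        intro Y
        have h3 := le_fm Y N 0 l
        rw [h1, finrank_R_top hqN] at h3
        have h4 : (prd (cs Y) 0 l).rank = 0 := by
          rcases Nat.eq_zero_or_pos (prd (cs Y) 0 l).rank with h5 | h5
          · exact h5
          · nlinarith
        exact eq_zero_of_rank h4
      have h3 : A ^ l = ⊥ := by
        rw [eq_bot_iff]
        refine (pow_le_span l 0).trans ?_
        rw [Submodule.span_le]
        rintro _ ⟨Y, rfl⟩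
        simp [h2 Y]
      have h4 : A ^ N = ⊥ := by
        rw [show N = l + (N - l) by omega, pow_add, h3, Submodule.bot_mul]
      rw [hqN] at h4
      have h5 : (1 : Mt D) ∈ (⊤ : Submodule ℂ (Mt D)) := trivial
      rw [h4, Submodule.mem_bot] at h5
      have : Nonempty (Fin D) := ⟨⟨0, by omega⟩⟩
      exact one_ne_zero h5
    · exact h
  have hρanti : ∀ l, ρ (l + 1) ≤ ρ l := by
    intro l
    simp only [hρ, prd_succ]
    exact Matrix.rank_mul_le_left _ _
  -- equal ranks give equal ranges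
  have hrange : ∀ s l, s ≤ N → l + 1 ≤ N → ρ (l + 1) = ρ l →
      LinearMap.range (prd (cs X) s (l + 1)).mulVecLin = LinearMap.range (prd (cs X) s l).mulVecLin := by
    intro s l hs hl h
    apply Submodule.eq_of_le_of_finrank_eq
    · rw [prd_succ, Matrix.mulVecLin_mul]
      exact LinearMap.range_comp_le_range _ _
    · change (prd (cs X) s (l + 1)).rank = (prd (cs X) s l).rank
      rw [hρs s hs _ hl, hρs s hs _ (by omega), h]
  -- first index where the rank is stable
  obtain ⟨i0, hi0⟩ : ∃ i0, i0 ≤ D - ρ i0 ∧ ρ i0 ≤ D ∧ ρ (i0 + 1) = ρ i0 ∧ i0 < D := by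
    by_contra hcon
    push Not at hcon
    have h1 : ∀ i ≤ D, i + ρ i ≤ D := by
      intro i
      induction i with
      | zero => intro _; rw [hρ0]; omega
      | succ i ih =>
        intro hi
        have h2 := ih (by omega)
        have h3 := hcon i (by omega) (by omega)
        have h4 := hρanti i
        by_cases h5 : ρ (i + 1) = ρ i
        · have := h3 h5; omega
        · omega
    have h2 := h1 D le_rfl
    have h3 := hρpos D (by omega)
    omega
  obtain ⟨hi0a, hi0b, hi0c, hi0d⟩ := hi0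
  set m := ρ i0 with hm
  have hm1 : 1 ≤ m := hρpos i0 (by omega)
  have hi0pos : 1 ≤ i0 := by
    rcases Nat.eq_zero_or_pos i0 with h | h
    · exfalso
      have h1 : m = D := by rw [hm, h, hρ0]
      rw [h] at hi0c
      simp only [zero_add] at hi0c
      omega
    · exact h
  have hmD : m ≤ D - 1 := by omega
  -- the three products
  set P1 := prd (cs X) 0 i0 with hP1
  set P2 := prd (cs X) 1 i0 with hP2
  set P := prd (cs X) 0 (i0 + 1) with hP
  have hPa : P = P1 * cs X i0 := by rw [hP, prd_succ]; simp [hP1]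
  have hPb : P = cs X 0 * P2 := by rw [hP, prd_succ']
  set f : ℕ → ℕ := fun a => finrank ℂ (R A a P1) with hf
  have hf1 : ∀ a ≤ N, f a = fm A a i0 := fun a ha => hX a ha 0 (by omega) i0 (by omega)
  have hf2 : ∀ a ≤ N, finrank ℂ (R A a P2) = f a := by
    intro a ha
    rw [hf1 a ha]
    exact hX a ha 1 (by omega) i0 (by omega)
  have hrangeP : LinearMap.range P.mulVecLin = LinearMap.range P1.mulVecLin :=
    hrange 0 i0 (by omega) (by omega) hi0c
  have hf3 : ∀ a, finrank ℂ (R A a P) = f a := by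
    intro a
    have h1 : R A a P = (R A a P1).map (LinearMap.mulRight ℂ (cs X i0)) := by
      ext Z
      rw [mem_R, Submodule.mem_map]
      constructor
      · rintro ⟨B, hB, rfl⟩
        exact ⟨B * P1, mem_R.2 ⟨B, hB, rfl⟩, by simp [hPa, mul_assoc]⟩
      · rintro ⟨W, hW, rfl⟩
        obtain ⟨B, hB, rfl⟩ := mem_R.1 hW
        exact ⟨B, hB, by simp [hPa, mul_assoc]⟩
    rw [h1, ← LinearMap.range_domRestrict]
    apply LinearMap.finrank_range_of_inj
    rw [← LinearMap.ker_eq_bot, LinearMap.ker_eq_bot']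
    rintro ⟨Z, hZ⟩ h0
    obtain ⟨B, hB, rfl⟩ := mem_R.1 hZ
    simp only [LinearMap.domRestrict_apply, LinearMap.mulRight_apply] at h0
    have h2 : B * P = 0 := by rw [hPa, ← mul_assoc, h0]
    apply Subtype.ext
    change B * P1 = 0
    apply Matrix.ext_of_mulVec_single
    intro i
    have h3 : P1.mulVecLin (Pi.single i 1) ∈ LinearMap.range P.mulVecLin := by
      rw [hrangeP]; exact ⟨_, rfl⟩
    obtain ⟨u, hu⟩ := h3
    simp only [Matrix.mulVecLin_apply] at hu
    rw [← Matrix.mulVec_mulVec, ← hu, Matrix.mulVec_mulVec, h2, Matrix.zero_mulVec,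
      Matrix.zero_mulVec]
  have hf4 : ∀ a, R A a P ≤ R A (a + 1) P2 := by
    intro a Z hZ
    obtain ⟨B, hB, rfl⟩ := mem_R.1 hZ
    refine mem_R.2 ⟨B * cs X 0, ?_, by rw [hPb, mul_assoc]⟩
    rw [pow_succ]
    exact Submodule.mul_mem_mul hB (cs_mem X 0)
  have hRsucc : ∀ (a : ℕ) (Y : Mt D), R A (a + 1) Y = A * R A a Y := by
    intro a Y
    rw [R, R, pow_succ', mul_assoc]
  have hmono : ∀ a, a + 1 ≤ N → f a ≤ f (a + 1) := by
    intro a ha
    rw [← hf3 a, ← hf2 (a + 1) ha]
    exact Submodule.finrank_mono (hf4 a)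
  have hfstep : ∀ a, a + 2 ≤ N → f a = f (a + 1) → f (a + 1) = f (a + 2) := by
    intro a ha h
    have h1 : R A a P = R A (a + 1) P2 := by
      apply Submodule.eq_of_le_of_finrank_eq (hf4 a)
      rw [hf3 a, hf2 (a + 1) (by omega), h]
    have h2 : R A (a + 1) P = R A (a + 2) P2 := by
      rw [hRsucc a, hRsucc (a + 1), h1]
    rw [← hf3 (a + 1), h2, hf2 (a + 2) ha]
  have hfN : f N = D * m := by
    simp only [hf]
    rw [finrank_R_top hqN]
  have hfconst : ∀ a, a + 1 ≤ N → f a = f (a + 1) → f a = D * m := by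
    intro a ha h
    have h1 : ∀ j, a + j + 1 ≤ N → f (a + j) = f a ∧ f (a + j + 1) = f a := by
      intro j
      induction j with
      | zero => intro _; exact ⟨rfl, h.symm⟩
      | succ j ih =>
        intro hj
        have ih' := ih (by omega)
        refine ⟨ih'.2, ?_⟩
        have h2 := hfstep (a + j) (by omega) (by rw [ih'.1, ih'.2])
        rw [show a + (j + 1) + 1 = a + j + 2 by ring, ← h2, ih'.2]
    have h2 := (h1 (N - a - 1) (by omega)).2
    rw [show a + (N - a - 1) + 1 = N by omega, hfN] at h2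
    exact h2.symm
  have hDm : D * m ≤ D ^ 2 := by
    rw [pow_two]; exact Nat.mul_le_mul_left _ (by omega)
  have hfge : ∀ a, a < D * m → a + 1 ≤ f a := by
    intro a
    induction a with
    | zero =>
      intro _
      have h1 : 0 < f 0 := by
        simp only [hf]
        rw [Module.finrank_pos_iff_exists_ne_zero]
        refine ⟨⟨P1, mem_R.2 ⟨1, ?_, by simp⟩⟩, ?_⟩
        · rw [pow_zero]; exact Submodule.one_le.1 le_rfl
        · intro h0
          have h2 : P1 = 0 := by simpa [Subtype.ext_iff] using h0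
          have h3 : m = 0 := by
            rw [hm]; simp only [hρ]
            rw [← hP1, h2, Matrix.rank_zero]
          omega
      omega
    | succ a ih =>
      intro ha
      have ih' := ih (by omega)
      have h1 := hmono a (by omega)
      rcases Nat.lt_or_ge (f a) (f (a + 1)) with h2 | h2
      · omega
      · have h3 := hfconst a (by omega) (by omega)
        omega
  have hfull1 : R A (D * m - 1) P1 = R A N P1 := by
    have h1 : finrank ℂ (R A (D * m - 1) P1) = D * m := by
      have h2 := hfge (D * m - 1) (by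
        have : 0 < D * m := by positivity
        omega)
      have h3 : finrank ℂ (R A (D * m - 1) P1) ≤ finrank ℂ (R A N P1) := by
        apply Submodule.finrank_mono
        intro Z hZ
        obtain ⟨B, hB, rfl⟩ := mem_R.1 hZ
        exact mem_R.2 ⟨B, by rw [hqN]; trivial, rfl⟩
      change D * m - 1 + 1 ≤ finrank ℂ (R A (D * m - 1) P1) at h2
      change finrank ℂ (R A N P1) = D * m at hfN
      omega
    apply Submodule.eq_of_le_of_finrank_eq
    · intro Z hZ
      obtain ⟨B, hB, rfl⟩ := mem_R.1 hZ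
      exact mem_R.2 ⟨B, by rw [hqN]; trivial, rfl⟩
    · rw [h1]; exact hfN.symm
  -- find a vector not killed
  obtain ⟨l, hl, x, hx, hz⟩ : ∃ l ≤ D - m, ∃ x ∈ orb A l v, P1 *ᵥ x ≠ 0 := by
    by_contra hcon
    push Not at hcon
    have h1 : U A v (D - m) ≤ LinearMap.ker P1.mulVecLin := by
      unfold U
      apply iSup₂_le
      intro l hl x hx
      simp at hl
      rw [LinearMap.mem_ker, Matrix.mulVecLin_apply]
      exact hcon l (by omega) x hx
    have h2 := Submodule.finrank_mono h1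
    have h3 := U_finrank ⟨q, hq⟩ hv (D - m) (by omega)
    have h4 := LinearMap.finrank_range_add_finrank_ker P1.mulVecLin
    have h5 : finrank ℂ (LinearMap.range P1.mulVecLin) = m := rfl
    simp only [Module.finrank_fintype_fun_eq_card, Fintype.card_fin] at h4
    omega
  have hfin : orb A ((D * m - 1) + i0 + l) v = ⊤ := by
    rw [eq_top_iff]
    intro w _
    have h1 : w ∈ orb A N (P1 *ᵥ x) := by
      rw [orb_top hqN hz]; trivial
    obtain ⟨B, hB, hBw⟩ := mem_orb.1 h1
    have h2 : B * P1 ∈ R A (D * m - 1) P1 := by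
      rw [hfull1]; exact mem_R.2 ⟨B, hB, rfl⟩
    obtain ⟨C, hC, hCB⟩ := mem_R.1 h2
    have h3 : w ∈ orb A ((D * m - 1) + i0) x := by
      refine mem_orb.2 ⟨C * P1, ?_, ?_⟩
      · rw [pow_add]
        exact Submodule.mul_mem_mul hC (prd_mem X 0 i0)
      · rw [hCB, ← Matrix.mulVec_mulVec, hBw]
    exact orb_add hx h3
  refine orb_le ⟨q, hq⟩ ?_ hfin
  -- arithmetic
  have h1 : l ≤ D - m := hl
  have h2 : i0 ≤ D - m := hi0a
  obtain ⟨e, he⟩ : ∃ e, D = m + 1 + e := ⟨D - m - 1, by omega⟩
  have h3 : D ^ 2 = D * m + D + D * e := by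
    rw [pow_two]
    calc D * D = D * (m + 1 + e) := by rw [← he]
      _ = _ := by ring
  have h4 : 2 * e ≤ D * e := Nat.mul_le_mul_right _ hD
  have h5 : 0 < D * m := by positivity
  omega

end Pool.Agent.PrimIdx
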