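import Pool.Agent.MP_8bfff4_mp.LieBound
import Pool.Agent.MP_8bfff4_mp.Conj
import Pool.Agent.MP_8bfff4_mp.Comm
import Pool.Agent.MP_8bfff4_mp.Full

/-! # Part II : spans with an invertible element, and the full upper bound -/

namespace Pool.Agent.PrimIdx

open Matrix Module

variable {D : ℕ} {A : Submodule ℂ (Mt D)}

/-- levels generated by `R` -/
def Tl (A : Submodule ℂ (Mt D)) (R : Mt D) : ℕ → Submodule ℂ (Mt D)
  | 0 => Submodule.span ℂ {R}
  | (k + 1) => A * Tl A R k ⊔ Tl A R k * A

lemma Tl_trace {R : Mt D} {N : ℕ} (h : ∀ B ∈ A ^ N, (B * R).trace = 0) (k : ℕ) (hk : k ≤ N) :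
    ∀ Z ∈ Tl A R k, ∀ B ∈ A ^ (N - k), (B * Z).trace = 0 := by
  induction k with
  | zero =>
    intro Z hZ B hB
    obtain ⟨c, rfl⟩ := Submodule.mem_span_singleton.1 hZ
    rw [mul_smul_comm, Matrix.trace_smul, h B hB, smul_zero]
  | succ k ih =>
    intro Z hZ B hB
    have ih' := ih (by omega)
    rw [Tl, Submodule.mem_sup] at hZ
    obtain ⟨Z1, hZ1, Z2, hZ2, rfl⟩ := hZ
    rw [mul_add, Matrix.trace_add]
    have e : A ^ (N - k) = A ^ (N - (k + 1)) * A := by
      rw [← pow_succ]; congr 1; omega
    have e' : A ^ (N - k) = A * A ^ (N - (k + 1)) := by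
      rw [← pow_succ']; congr 1; omega
    have h1 : (B * Z1).trace = 0 := by
      induction hZ1 using Submodule.mul_induction_on' with
      | mem_mul_mem M hM Y hY =>
        rw [← mul_assoc]
        apply ih' Y hY
        rw [e]
        exact Submodule.mul_mem_mul hB hM
      | add x _ y _ hx hy => rw [mul_add, Matrix.trace_add, hx, hy, add_zero]
    have h2 : (B * Z2).trace = 0 := by
      induction hZ2 using Submodule.mul_induction_on' with
      | mem_mul_mem Y hY M hM =>
        rw [← mul_assoc, Matrix.trace_mul_comm, ← mul_assoc]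
        apply ih' Y hY
        rw [e']
        exact Submodule.mul_mem_mul hM hB
      | add x _ y _ hx hy => rw [mul_add, Matrix.trace_add, hx, hy, add_zero]
    rw [h1, h2, add_zero]

lemma pow_mem_Tl {R M : Mt D} (hM : M ∈ A) (k : ℕ) : M ^ k * R ∈ Tl A R k := by
  induction k with
  | zero => simp [Tl]
  | succ k ih =>
    rw [Tl, pow_succ', mul_assoc]
    exact Submodule.mem_sup_left (Submodule.mul_mem_mul hM ih)

lemma trace_mul_single' (B : Mt D) (i j : Fin D) :
    (B * Matrix.single i j (1 : ℂ)).trace = B j i := by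
  have h : Matrix.single i j (1 : ℂ) =
      Matrix.vecMulVec (Pi.single i 1 : Fin D → ℂ) (Pi.single j 1) := by
    ext a b
    simp only [Matrix.single_apply, Matrix.vecMulVec_apply, Pi.single_apply]
    by_cases h1 : i = a <;> by_cases h2 : j = b <;> simp [h1, h2, eq_comm]
  rw [h, trace_mul_vecMulVec]
  simp

/-- a rank one matrix of size at least 2 is not a scalar -/
lemma vecMulVec_not_scalar (hD : 2 ≤ D) {u w : Fin D → ℂ} (hu : u ≠ 0) (hw : w ≠ 0) (c : ℂ) :
    Matrix.vecMulVec u w ≠ c • (1 : Mt D) := by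
  intro h
  have hne : Matrix.vecMulVec u w ≠ 0 := by
    obtain ⟨i, hi⟩ : ∃ i, u i ≠ 0 := by
      by_contra hc; push Not at hc; exact hu (funext hc)
    obtain ⟨j, hj⟩ : ∃ j, w j ≠ 0 := by
      by_contra hc; push Not at hc; exact hw (funext hc)
    intro h0
    have := congrFun (congrFun h0 i) j
    rw [Matrix.vecMulVec_apply] at this
    exact mul_ne_zero hi hj this
  have h1 : (Matrix.vecMulVec u w).rank ≤ 1 := Matrix.rank_vecMulVec_le u w
  have hc : c ≠ 0 := by
    rintro rfl
    rw [zero_smul] at h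
    exact hne h
  rw [h] at h1
  have h2 : (c • (1 : Mt D)).rank = D := by
    have h3 : IsUnit (c • (1 : Mt D)) := by
      rw [Matrix.isUnit_iff_isUnit_det]
      simp [hc]
    rw [Matrix.rank_of_isUnit _ h3, Fintype.card_fin]
  omega

/-- Part II -/
theorem partII (hD : 2 ≤ D) (hfull : ∃ q, ∀ n ≥ q, A ^ n = ⊤)
    (hu : ∃ M ∈ A, IsUnit M) (v : Fin D → ℂ) (hv : v ≠ 0) :
    orb A (D ^ 2 - D + 1) v = ⊤ := by
  set N := D ^ 2 - D + 1 with hN
  have hDD : D ≤ D ^ 2 := by nlinarith
  -- dimension of A at least 2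
  have hdim : 2 ≤ finrank ℂ A := by
    by_contra hlt
    obtain ⟨M, hM, hMu⟩ := hu
    have hM0 : (⟨M, hM⟩ : A) ≠ 0 := by
      intro h
      have h1 : M = 0 := by simpa [Subtype.ext_iff] using h
      rw [h1] at hMu
      have : Nonempty (Fin D) := ⟨⟨0, by omega⟩⟩
      exact not_isUnit_zero hMu
    have hspan : A = Submodule.span ℂ {M} := by
      symm
      apply Submodule.eq_of_le_of_finrank_le
      · rw [Submodule.span_le]
        simpa using hM
      · rw [finrank_span_singleton (by simpa [Subtype.ext_iff] using hM0)]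
        omega
    obtain ⟨q, hq⟩ := hfull
    have h1 := hq q le_rfl
    rw [hspan, Submodule.span_pow, Set.singleton_pow] at h1
    have h2 : finrank ℂ ↥(Submodule.span ℂ {M ^ q}) ≤ 1 :=
      (finrank_span_le_card _).trans (by simp)
    rw [h1, finrank_top, finrank_Mt] at h2
    nlinarith
  by_contra hne
  -- a functional vanishing on the orbit
  obtain ⟨x, hx⟩ : ∃ x, x ∉ orb A N v := by
    by_contra hc
    push Not at hc
    exact hne (eq_top_iff.2 (fun x _ => hc x))
  obtain ⟨g, hg, hgS⟩ := Submodule.exists_le_ker_of_notMem hx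
  set ψ : Fin D → ℂ := fun i => g (Pi.single i 1) with hψ
  have hgψ : ∀ w, g w = ψ ⬝ᵥ w := by
    intro w
    conv_lhs => rw [← Finset.univ_sum_single w]
    rw [map_sum]
    simp only [dotProduct, hψ]
    apply Finset.sum_congr rfl
    intro i _
    have : (Pi.single i (w i) : Fin D → ℂ) = w i • Pi.single i 1 := by
      rw [← Pi.single_smul]; simp
    rw [this, map_smul, smul_eq_mul, mul_comm]
  have hψ0 : ψ ≠ 0 := by
    intro h
    apply hg
    rw [hgψ, h, zero_dotProduct]
  set R : Mt D := Matrix.vecMulVec v ψ with hR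
  have hRtr : ∀ B ∈ A ^ N, (B * R).trace = 0 := by
    intro B hB
    rw [hR, trace_mul_vecMulVec, ← hgψ]
    exact hgS (mem_orb.2 ⟨B, hB, rfl⟩)
  have htr := Tl_trace (A := A) (R := R) (N := N) hRtr
  by_cases hcase : ∀ k < N, ∃ M ∈ A, IsUnit M ∧ ∃ Z ∈ Tl A R k, M * Z * M⁻¹ ∉ Tl A R k
  · have h1 := comm_chain (A := A) (Tl A R) N
      (fun k M hM Z hZ => Submodule.mem_sup_left (Submodule.mul_mem_mul hM hZ))
      (fun k M hM Z hZ => Submodule.mem_sup_right (Submodule.mul_mem_mul hZ hM))
      hcase (by omega)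
    omega
  · push Not at hcase
    obtain ⟨k, hk, hT⟩ := hcase
    set T := Tl A R k with hTdef
    -- the normaliser
    let h : Submodule ℂ (Mt D) :=
      { carrier := {ξ | ∀ Z ∈ T, ξ * Z - Z * ξ ∈ T}
        add_mem' := by
          intro a b ha hb Z hZ
          have := Submodule.add_mem _ (ha Z hZ) (hb Z hZ)
          convert this using 1
          noncomm_ring
        zero_mem' := by
          intro Z _
          simp
        smul_mem' := by
          intro c a ha Z hZ
          have := Submodule.smul_mem _ c (ha Z hZ)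
          convert this using 1
          rw [smul_mul_assoc, mul_smul_comm, smul_sub] }
    have hmem : ∀ ξ, ξ ∈ h ↔ ∀ Z ∈ T, ξ * Z - Z * ξ ∈ T := fun ξ => Iff.rfl
    have h1 : (1 : Mt D) ∈ h := by
      rw [hmem]; intro Z _; simp
    have hbr : ∀ X ∈ h, ∀ Y ∈ h, X * Y - Y * X ∈ h := by
      intro X hX Y hY
      rw [hmem] at hX hY ⊢
      intro Z hZ
      have e1 := hX _ (hY Z hZ)
      have e2 := hY _ (hX Z hZ)
      have := Submodule.sub_mem _ e1 e2
      convert this using 1
      noncomm_ring
    have hBM : ∀ B ∈ A, ∀ M ∈ A, IsUnit M → B * M⁻¹ ∈ h := by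
      intro B hB M hM hMu
      rw [hmem]
      intro Z hZ
      exact lie_of_conj A T hT B M hB hM hMu Z hZ
    have hconj : ∀ M ∈ A, IsUnit M → ∀ Z ∈ h, M * Z * M⁻¹ ∈ h := by
      intro M hM hMu ξ hξ
      rw [hmem] at hξ ⊢
      intro Z hZ
      have hMu' := (Matrix.isUnit_iff_isUnit_det _).1 hMu
      -- M⁻¹ Z M ∈ T
      let cj : Mt D →ₗ[ℂ] Mt D := (LinearMap.mulRight ℂ M⁻¹).comp (LinearMap.mulLeft ℂ M)
      have hcj : ∀ W, cj W = M * W * M⁻¹ := by intro W; simp [cj]
      have hinj : Function.Injective cj := by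
        intro a b hab
        rw [hcj, hcj] at hab
        have h2 : M⁻¹ * (M * a * M⁻¹) * M = M⁻¹ * (M * b * M⁻¹) * M := by rw [hab]
        have h3 : ∀ W : Mt D, M⁻¹ * (M * W * M⁻¹) * M = W := by
          intro W
          calc M⁻¹ * (M * W * M⁻¹) * M = (M⁻¹ * M) * W * (M⁻¹ * M) := by noncomm_ring
            _ = W := by rw [Matrix.nonsing_inv_mul _ hMu']; simp
        rwa [h3, h3] at h2
      have hTmap : T.map cj = T := by
        apply Submodule.eq_of_le_of_finrank_eq
        · rintro _ ⟨W, hW, rfl⟩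
          rw [hcj]
          exact hT M hM hMu W hW
        · rw [← LinearMap.range_domRestrict]
          exact LinearMap.finrank_range_of_inj (fun a b hab => Subtype.ext (hinj hab))
      obtain ⟨W, hW, hWZ⟩ : Z ∈ T.map cj := by rw [hTmap]; exact hZ
      rw [hcj] at hWZ
      have h2 := hT M hM hMu _ (hξ W hW)
      have h3 : M * ξ * M⁻¹ * Z - Z * (M * ξ * M⁻¹) = M * (ξ * W - W * ξ) * M⁻¹ := by
        rw [← hWZ]
        calc M * ξ * M⁻¹ * (M * W * M⁻¹) - M * W * M⁻¹ * (M * ξ * M⁻¹)
            = M * ξ * (M⁻¹ * M) * W * M⁻¹ - M * W * (M⁻¹ * M) * ξ * M⁻¹ := by noncomm_ring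
          _ = _ := by rw [Matrix.nonsing_inv_mul _ hMu']; noncomm_ring
      rw [h3]
      exact h2
    have hne' : h ≠ ⊤ := by
      intro htop
      obtain ⟨M, hM, hMu⟩ := hu
      have hMu' := (Matrix.isUnit_iff_isUnit_det _).1 hMu
      have hQ : ∀ X : Mt D, ∀ Y ∈ T, X * Y - Y * X ∈ T := by
        intro X Y hY
        have : X ∈ h := by rw [htop]; trivial
        exact (hmem X).1 this Y hY
      have hcont : ∀ i j : Fin D, i ≠ j → Matrix.single i j (1 : ℂ) ∈ T := by
        intro i j hij
        apply ideal_contains T hQ (M ^ k * R) (pow_mem_Tl hM k) _ i j hij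
        intro c
        rw [hR, Matrix.mul_vecMulVec]
        apply vecMulVec_not_scalar hD _ hψ0
        intro h0
        apply hv
        have hu2 : IsUnit (M ^ k) := hMu.pow k
        have := Matrix.mulVec_injective_of_isUnit hu2
        apply this
        rw [h0, Matrix.mulVec_zero]
      -- all elements of A ^ (N - k) are scalar
      have hsc : ∀ B ∈ A ^ (N - k), ∃ c : ℂ, B = c • (1 : Mt D) := by
        intro B hB
        have i0 : Fin D := ⟨0, by omega⟩
        refine ⟨B i0 i0, ?_⟩
        have hoff : ∀ i j, i ≠ j → B i j = 0 := by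
          intro i j hij
          have := htr k (by omega) _ (hcont j i (Ne.symm hij)) B hB
          rwa [trace_mul_single'] at this
        have hdiag : ∀ i j, B i i = B j j := by
          intro i j
          by_cases hij : i = j
          · rw [hij]
          have h2 := hQ (Matrix.single i j (1 : ℂ)) _ (hcont j i (Ne.symm hij))
          have := htr k (by omega) _ h2 B hB
          rw [Matrix.single_mul_single_same, Matrix.single_mul_single_same, mul_sub,
            Matrix.trace_sub, one_mul, trace_mul_single', trace_mul_single'] at this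
          exact sub_eq_zero.1 this
        ext i j
        by_cases hij : i = j
        · subst hij
          simp [hdiag i i0]
        · simp [hoff i j hij, hij]
      -- contradiction with dim A ≥ 2
      have h2 : Submodule.span ℂ {M ^ (N - k - 1)} * A ≤ Submodule.span ℂ {(1 : Mt D)} := by
        intro B hB
        have h3 : B ∈ A ^ (N - k) := by
          rw [Submodule.mem_span_singleton_mul] at hB
          obtain ⟨z, hz, rfl⟩ := hB
          rw [show N - k = (N - k - 1) + 1 by omega, pow_succ]
          exact Submodule.mul_mem_mul (Submodule.pow_mem_pow _ hM _) hz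
        obtain ⟨c, rfl⟩ := hsc B h3
        exact Submodule.smul_mem _ _ (Submodule.mem_span_singleton_self _)
      have h3 := Submodule.finrank_mono h2
      rw [finrank_unit_mul (hMu.pow _)] at h3
      have h4 : finrank ℂ ↥(Submodule.span ℂ {(1 : Mt D)}) ≤ 1 :=
        (finrank_span_le_card _).trans (by simp)
      omega
    have hb : finrank ℂ h + D ≤ D ^ 2 + 2 := lie_bound h h1 hbr hne'
    have hk' : finrank ℂ h + 1 ≤ finrank ℂ A + N := by omega
    have htop := chain_c hfull h hu hBM hconj N hk'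
    exact hne (orb_top htop hv)

/-- the upper bound -/
theorem upper (hD : 2 ≤ D) (p : ℕ) (hp : ∀ v : Fin D → ℂ, v ≠ 0 → (A ^ p).map (ev v) = ⊤)
    (v : Fin D → ℂ) (hv : v ≠ 0) : (A ^ (D ^ 2 - D + 1)).map (ev v) = ⊤ := by
  have hfull := full_of_transitive (A := A) hD p hp
  by_cases h : ∃ M ∈ A, IsUnit M
  · exact partII hD hfull h v hv
  · push Not at h
    exact partI hD hfull h v hv

end Pool.Agent.PrimIdx
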