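import Mathlib
import Pool.Agent.MP_8bfff4_mp.Defs
import Pool.Agent.MP_8bfff4_mp.Win

/-! # Translation of `T ^ n` having full rank output into the span of words -/

namespace Pool.Agent.PrimIdx

open Matrix
open scoped ComplexOrder

variable {D d : ℕ}

lemma rank_full_iff (Y : Mt D) : Y.rank = D ↔ ∀ x, Y *ᵥ x = 0 → x = 0 := by
  have h1 : (∀ x, Y *ᵥ x = 0 → x = 0) ↔ Function.Injective Y.mulVecLin := by
    rw [injective_iff_map_eq_zero]
    rfl
  rw [h1, LinearMap.injective_iff_surjective, ← LinearMap.range_eq_top, Matrix.rank]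
  constructor
  · intro h
    apply Submodule.eq_top_of_finrank_eq
    rw [h, Module.finrank_fintype_fun_eq_card, Fintype.card_fin]
  · intro h
    rw [h, finrank_top, Module.finrank_fintype_fun_eq_card, Fintype.card_fin]

lemma T_psd {K : Fin d → Mt D} {T : Module.End ℂ (Mt D)}
    (hT : ∀ X, T X = ∑ i, K i * X * (K i)ᴴ) {X : Mt D} (hX : X.PosSemidef) : (T X).PosSemidef := by
  rw [hT]
  exact Matrix.posSemidef_sum _ fun i _ => hX.mul_mul_conjTranspose_same (K i)

lemma Tn_psd {K : Fin d → Mt D} {T : Module.End ℂ (Mt D)}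
    (hT : ∀ X, T X = ∑ i, K i * X * (K i)ᴴ) {X : Mt D} (hX : X.PosSemidef) (n : ℕ) :
    ((T ^ n) X).PosSemidef := by
  induction n with
  | zero => simpa using hX
  | succ n ih => rw [pow_succ', Module.End.mul_apply]; exact T_psd hT ih

lemma quad_expand {K : Fin d → Mt D} {T : Module.End ℂ (Mt D)}
    (hT : ∀ X, T X = ∑ i, K i * X * (K i)ᴴ) (Y : Mt D) (x : Fin D → ℂ) :
    star x ⬝ᵥ (T Y *ᵥ x) = ∑ i, star ((K i)ᴴ *ᵥ x) ⬝ᵥ (Y *ᵥ ((K i)ᴴ *ᵥ x)) := by
  rw [hT, Matrix.sum_mulVec, dotProduct_sum]
  refine Finset.sum_congr rfl fun i _ => ?_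
  rw [star_mulVec, conjTranspose_conjTranspose, ← Matrix.mulVec_mulVec, ← Matrix.mulVec_mulVec,
    dotProduct_mulVec]

lemma zero_iff {K : Fin d → Mt D} {T : Module.End ℂ (Mt D)}
    (hT : ∀ X, T X = ∑ i, K i * X * (K i)ᴴ) {ρ : Mt D} (hρ : ρ.PosSemidef) (n : ℕ) :
    ∀ x : Fin D → ℂ, star x ⬝ᵥ ((T ^ n) ρ *ᵥ x) = 0 ↔
      ∀ Z ∈ (Submodule.span ℂ (Set.range K)) ^ n, ρ *ᵥ (Zᴴ *ᵥ x) = 0 := by
  induction n with
  | zero =>
    intro x
    rw [pow_zero, pow_zero, Module.End.one_apply, hρ.dotProduct_mulVec_zero_iff]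
    constructor
    · intro h Z hZ
      rw [Submodule.mem_one] at hZ
      obtain ⟨c, rfl⟩ := hZ
      rw [Algebra.algebraMap_eq_smul_one, conjTranspose_smul, conjTranspose_one,
        Matrix.smul_mulVec, Matrix.one_mulVec, mulVec_smul, h, smul_zero]
    · intro h
      have := h 1 (Submodule.one_le.mp le_rfl)
      rwa [conjTranspose_one, one_mulVec] at this
  | succ n ih =>
    intro x
    rw [pow_succ', Module.End.mul_apply, quad_expand hT,
      Finset.sum_eq_zero_iff_of_nonneg (fun i _ => (Tn_psd hT hρ n).dotProduct_mulVec_nonneg _)]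
    constructor
    · intro h Z hZ
      rw [pow_succ'] at hZ
      induction hZ using Submodule.mul_induction_on' with
      | mem_mul_mem X hX Y hY =>
        rw [conjTranspose_mul, ← Matrix.mulVec_mulVec]
        -- X in the span
        induction hX using Submodule.span_induction with
        | mem X hX =>
          obtain ⟨i, rfl⟩ := hX
          exact (ih _).mp (h i (Finset.mem_univ i)) Y hY
        | zero => rw [conjTranspose_zero, zero_mulVec, mulVec_zero, mulVec_zero]
        | add X1 X2 _ _ h1 h2 =>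
          rw [conjTranspose_add, add_mulVec, mulVec_add, mulVec_add, h1, h2, add_zero]
        | smul c X1 _ h1 =>
          rw [conjTranspose_smul, smul_mulVec, mulVec_smul, mulVec_smul, h1, smul_zero]
      | add X _ Y _ hX hY =>
        rw [conjTranspose_add, add_mulVec, mulVec_add, hX, hY, add_zero]
    · intro h i _
      rw [ih]
      intro Z hZ
      have := h (K i * Z) (by
        rw [pow_succ']
        exact Submodule.mul_mem_mul (Submodule.subset_span ⟨i, rfl⟩) hZ)
      rwa [conjTranspose_mul, ← Matrix.mulVec_mulVec] at this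

/-- Translation: `T ^ n` maps nonzero positive semidefinite matrices to full rank ones iff the
words of length `n` applied to any nonzero vector span everything. -/
theorem fullAt_iff (K : Fin d → Mt D) (T : Module.End ℂ (Mt D))
    (hT : ∀ X, T X = ∑ i, K i * X * (K i)ᴴ) (n : ℕ) :
    FullAt T n ↔ ∀ v : Fin D → ℂ, v ≠ 0 → ((Submodule.span ℂ (Set.range K)) ^ n).map (ev v) = ⊤ := by
  constructor
  · intro h v hv
    by_contra hne
    -- a nonzero vector orthogonal to the proper subspace
    obtain ⟨f, hf, hf2⟩ := Submodule.exists_le_ker_of_lt_top _ (lt_top_iff_ne_top.mpr hne)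
    -- f y = star x ⬝ y
    let x : Fin D → ℂ := fun i => star (f (Pi.single i 1))
    have hx : ∀ y, f y = star x ⬝ᵥ y := by
      intro y
      rw [LinearMap.pi_apply_eq_sum_univ f y, dotProduct]
      refine Finset.sum_congr rfl fun i _ => ?_
      simp only [x, Pi.star_apply, star_star, smul_eq_mul]
      rw [mul_comm]
      congr 2
      ext j
      simp [Pi.single_apply, eq_comm]
    have hx0 : x ≠ 0 := by
      intro h0
      apply hf
      apply LinearMap.ext
      intro y
      rw [hx, h0]
      simp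
    have hρ : (vecMulVec v (star v)).PosSemidef := posSemidef_vecMulVec_self_star v
    have hρ0 : vecMulVec v (star v) ≠ 0 := by
      obtain ⟨i, hi⟩ := Function.ne_iff.mp hv
      intro h0
      have := congrFun (congrFun h0 i) i
      rw [vecMulVec_apply, Pi.star_apply] at this
      have h2 : v i = 0 := by
        rcases mul_eq_zero.mp this with h | h
        · exact h
        · exact star_eq_zero.mp h
      exact hi h2
    have h1 := h _ hρ hρ0
    have h2 : star x ⬝ᵥ ((T ^ n) (vecMulVec v (star v)) *ᵥ x) = 0 := by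
      rw [zero_iff hT hρ]
      intro Z hZ
      have h3 : star v ⬝ᵥ (Zᴴ *ᵥ x) = 0 := by
        have h4 : f (Z *ᵥ v) = 0 := hf2 ⟨Z, hZ, rfl⟩
        rw [hx] at h4
        rw [dotProduct_mulVec, ← star_mulVec]
        have h5 := congrArg star h4
        rw [star_zero, ← star_dotProduct_star, star_star, dotProduct_comm, dotProduct_comm] at h5
        exact h5
      ext i
      rw [mulVec, dotProduct]
      simp only [vecMulVec_apply]
      have : ∑ j, v i * star v j * (Zᴴ *ᵥ x) j = v i * (star v ⬝ᵥ (Zᴴ *ᵥ x)) := by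
        rw [dotProduct, Finset.mul_sum]
        refine Finset.sum_congr rfl fun j _ => by ring
      rw [this, h3, mul_zero]; rfl
    rw [(Tn_psd hT hρ n).dotProduct_mulVec_zero_iff] at h2
    exact hx0 ((rank_full_iff _).mp h1 x h2)
  · intro h ρ hρ hρ0
    rw [rank_full_iff]
    intro x hx
    have h1 : star x ⬝ᵥ ((T ^ n) ρ *ᵥ x) = 0 := by rw [hx, dotProduct_zero]
    rw [zero_iff hT hρ] at h1
    -- a vector in the range of ρ
    obtain ⟨u, hu⟩ : ∃ u, ρ *ᵥ u ≠ 0 := by
      by_contra hcon
      push Not at hcon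
      apply hρ0
      apply Matrix.toLin'.injective
      apply LinearMap.ext
      intro y
      rw [Matrix.toLin'_apply, hcon y]
      simp
    have h2 := h _ hu
    obtain ⟨Z, hZ, hZx⟩ : x ∈ ((Submodule.span ℂ (Set.range K)) ^ n).map (ev (ρ *ᵥ u)) := by
      rw [h2]; trivial
    rw [ev_apply] at hZx
    have h3 : star x ⬝ᵥ x = 0 := by
      have h4 := h1 Z hZ
      have h5 : star (ρ *ᵥ (Zᴴ *ᵥ x)) ⬝ᵥ u = 0 := by rw [h4, star_zero, zero_dotProduct]
      rw [star_mulVec, hρ.1.eq, ← dotProduct_mulVec, star_mulVec, conjTranspose_conjTranspose,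
        ← dotProduct_mulVec, hZx] at h5
      exact h5
    exact dotProduct_star_self_eq_zero.mp h3

end Pool.Agent.PrimIdx
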